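import Pool.Agent.TH115.ID.Gener
import Pool.Agent.W309.RK.Root

/-!
# Elliptic surfaces with a section of order two and given sections of infinite order

The points `x = q i` of `y² = x (x² + a x + ∏ q j)`: their classes modulo squares, and their independence.
-/

set_option autoImplicit false
set_option linter.all false

open Polynomial IsDedekindDomain WeierstrassCurve WeierstrassCurve.Affine
open scoped Classical

namespace Pool.Agent.H709.TS

open Pool.Agent.TH115.GD Pool.Agent.W309.RK

section indep

theorem indep_of_hom {G : Type} [AddCommGroup G] {r : ℕ} (T : G)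
    (h2 : ∀ g : G, g + g = 0 → g = 0 ∨ g = T)
    (φ : G →+ (Fin (r + 1) → ZMod 2)) (P : Fin r → G) (hφT : φ T 0 = 1)
    (hφP : ∀ i j, φ (P i) j = if j = i.succ then 1 else 0) : LinearIndependent ℤ P := by
  rw [Fintype.linearIndependent_iff]
  have key : ∀ (N : ℕ) (c : Fin r → ℤ), (∑ i, c i • P i = 0 ∨ ∑ i, c i • P i = T) →
      ∀ i, (2 : ℤ) ^ N ∣ c i := by
    intro N
    induction N with
    | zero => intro c _ i; simp
    | succ N ih =>
      intro c hc i
      have hval : ∀ j, φ (∑ i, c i • P i) j =
          ∑ i, (c i : ZMod 2) * (if j = i.succ then 1 else 0) := by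
        intro j
        rw [map_sum, Finset.sum_apply]
        refine Finset.sum_congr rfl fun i _ => ?_
        rw [map_zsmul, Pi.smul_apply, hφP, zsmul_eq_mul]
      have h0 : ∑ i, c i • P i = 0 := by
        rcases hc with h | h
        · exact h
        · exfalso
          have h3 := hval 0
          rw [h, hφT] at h3
          have h4 : ∑ i : Fin r, (c i : ZMod 2) *
              (if (0 : Fin (r + 1)) = i.succ then 1 else 0) = 0 := by
            refine Finset.sum_eq_zero fun i _ => ?_
            rw [if_neg (Fin.succ_ne_zero i).symm, mul_zero]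
          rw [h4] at h3
          exact one_ne_zero h3
      have heven : ∀ i, (2 : ℤ) ∣ c i := by
        intro i
        have h3 := hval i.succ
        rw [h0, map_zero, Pi.zero_apply] at h3
        rw [Finset.sum_eq_single i] at h3
        · rw [if_pos rfl, mul_one] at h3
          exact (ZMod.intCast_zmod_eq_zero_iff_dvd (c i) 2).1 h3.symm
        · intro j _ hj
          rw [if_neg (fun e => hj (Fin.succ_injective _ e).symm), mul_zero]
        · intro h
          exact absurd (Finset.mem_univ i) h
      choose m hm using heven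
      have hm0 : (∑ i, m i • P i) + (∑ i, m i • P i) = 0 := by
        rw [← Finset.sum_add_distrib, ← h0]
        refine Finset.sum_congr rfl fun i _ => ?_
        rw [← add_zsmul, hm i, two_mul]
      have h6 := ih m (h2 _ hm0) i
      rw [hm i, pow_succ, mul_comm ((2 : ℤ) ^ N) 2]
      exact mul_dvd_mul_left 2 h6
  intro c hc i
  by_contra hne
  obtain ⟨N, hN⟩ := exists_nat_gt |c i|
  have h3 := Int.le_of_dvd (abs_pos.2 hne) ((dvd_abs _ _).2 (key N c (Or.inl hc) i))
  have h5 : (N : ℤ) < 2 ^ N := by exact_mod_cast Nat.lt_two_pow_self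
  omega

end indep

section curve

variable {K : Type} [Field K] (a b : K)

theorem crv_root : HasRoot ((crvT a b).baseChange K).toAffine 0 where
  a1 := map_zero _
  a3 := map_zero _
  root := by
    have : ((crvT a b).baseChange K).toAffine.a₆ = 0 := map_zero _
    rw [this]; ring

theorem crv_eqn {x y : K} : ((crvT a b).baseChange K).toAffine.Equation x y ↔
    y ^ 2 = x * (x ^ 2 + a * x + b) := by
  have e1 : ((crvT a b).baseChange K).toAffine.a₁ = 0 := map_zero _
  have e2 : ((crvT a b).baseChange K).toAffine.a₂ = a := rfl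
  have e3 : ((crvT a b).baseChange K).toAffine.a₃ = 0 := map_zero _
  have e4 : ((crvT a b).baseChange K).toAffine.a₄ = b := rfl
  have e6 : ((crvT a b).baseChange K).toAffine.a₆ = 0 := map_zero _
  rw [Affine.equation_iff, e1, e2, e3, e4, e6]
  constructor <;> intro h <;> linear_combination h

theorem crv_ns {x y : K} (h2 : (2 : K) ≠ 0) (hy : y ≠ 0) (h : y ^ 2 = x * (x ^ 2 + a * x + b)) :
    ((crvT a b).baseChange K).toAffine.Nonsingular x y := by
  have e1 : ((crvT a b).baseChange K).toAffine.a₁ = 0 := map_zero _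
  have e3 : ((crvT a b).baseChange K).toAffine.a₃ = 0 := map_zero _
  rw [Affine.nonsingular_iff]
  refine ⟨(crv_eqn a b).2 h, Or.inr ?_⟩
  rw [e1, e3]
  intro h3
  have : 2 * y = 0 := by linear_combination h3
  exact mul_ne_zero h2 hy this

theorem del_dT (P : Pt (crvT a b) K) :
    del ((crvT a b).baseChange K).toAffine 0 P = dT b P := by
  rcases P with _ | ⟨x, y, h⟩
  · rfl
  · have e4 : ((crvT a b).baseChange K).toAffine.a₄ = b := rfl
    simp only [del, dT, Pool.Agent.W309.RK.dd, e4]
    split_ifs <;> ring

theorem two_tors (h2 : (2 : K) ≠ 0) (hb : b ≠ 0) (hd : ∀ g : K, g ^ 2 ≠ a ^ 2 - 4 * b)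
    (P : Pt (crvT a b) K) (hP : P + P = 0) :
    P = 0 ∨ P = Point.some 0 0 (nons_zero a hb) := by
  rcases P with _ | ⟨x, y, hxy⟩
  · left; rfl
  right
  have hy : y = 0 := by
    by_contra hy
    have hne : y ≠ ((crvT a b).baseChange K).toAffine.negY x y := by
      rw [(crv_root a b).negY]
      intro h1
      have : (2 : K) * y = 0 := by linear_combination h1
      rcases mul_eq_zero.1 this with h3 | h3
      · exact h2 h3
      · exact hy h3
    rw [Point.add_self_of_Y_ne hne] at hP
    exact absurd hP (Point.some_ne_zero _)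
  subst hy
  have hx : x = 0 := by
    by_contra hx
    have h1 := (crv_eqn a b).1 hxy.1
    have h3 : x ^ 2 + a * x + b = 0 := by
      have h4 : x * (x ^ 2 + a * x + b) = 0 := by linear_combination -h1
      exact (mul_eq_zero.1 h4).resolve_left hx
    apply hd (2 * x + a)
    linear_combination 4 * h3
  subst hx
  rfl

end curve

section ord

variable {k K : Type} [Field k] [Field K] [Algebra k[X] K] [IsFractionRing k[X] K]

/-- The prime ideal of an irreducible polynomial. -/
noncomputable def vp (π : k[X]) (hπ : Irreducible π) : HeightOneSpectrum k[X] where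
  asIdeal := Ideal.span {π}
  isPrime := (Ideal.span_singleton_prime hπ.ne_zero).2 hπ.prime
  ne_bot := by rw [Ne, Ideal.span_singleton_eq_bot]; exact hπ.ne_zero

/-- The order at an irreducible polynomial (with the opposite sign). -/
noncomputable def ordP (π : k[X]) (hπ : Irreducible π) (x : K) : ℤ :=
  WithZero.log ((vp π hπ).valuation K x)

theorem ordP_mul (π : k[X]) (hπ : Irreducible π) (f g : K) (hf : f ≠ 0) (hg : g ≠ 0) :
    ordP π hπ (f * g) = ordP π hπ f + ordP π hπ g := by
  unfold ordP
  rw [map_mul, WithZero.log_mul ((Valuation.ne_zero_iff _).2 hf) ((Valuation.ne_zero_iff _).2 hg)]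

theorem ordP_self (π : k[X]) (hπ : Irreducible π) :
    ordP π hπ (algebraMap k[X] K π) = -1 := by
  unfold ordP
  rw [HeightOneSpectrum.valuation_of_algebraMap,
    HeightOneSpectrum.intValuation_singleton (vp π hπ) hπ.ne_zero rfl, WithZero.log_exp]

theorem ordP_of_not_dvd (π : k[X]) (hπ : Irreducible π) {f : k[X]} (hf : ¬ π ∣ f) :
    ordP π hπ (algebraMap k[X] K f) = 0 := by
  unfold ordP
  rw [HeightOneSpectrum.valuation_of_algebraMap]
  have : (vp π hπ).intValuation f = 1 := by
    rw [HeightOneSpectrum.intValuation_eq_one_iff]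
    intro h
    exact hf (Ideal.mem_span_singleton.1 h)
  rw [this, WithZero.log_one]

theorem ordP_one (π : k[X]) (hπ : Irreducible π) : ordP π hπ (1 : K) = 0 := by
  unfold ordP
  rw [map_one, WithZero.log_one]

end ord

section const

variable {k k' K F : Type} [Field k] [Field k'] [Algebra k k'] [Field K] [Algebra k[X] K]
    [Field F] [Algebra k'[X] F] [IsFractionRing k'[X] F] [Algebra K F]

/-- (from `Pool.Agent.R939.EI.Sec3`) -/
theorem rep_const (hT : IsTower k k' K F) (h2 : (2 : k) ≠ 0) {A : k[X]} {c : k}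
    (hc : c ≠ 0) {d : K} (h : Represents K F A d) : Represents K F (C c * A) d := by
  haveI := hT.sep
  haveI : IsSepClosed k' := IsSepClosure.sep_closed k
  have h2' : (2 : k') ≠ 0 := by
    rw [← map_ofNat (algebraMap k k') 2]
    exact (_root_.map_ne_zero _).2 h2
  haveI : NeZero ((2 : ℕ) : k') := ⟨by exact_mod_cast h2'⟩
  obtain ⟨t, ht⟩ := IsSepClosed.exists_pow_nat_eq (algebraMap k k' c) 2
  have ht0 : t ≠ 0 := by
    rintro rfl
    rw [zero_pow two_ne_zero] at ht
    exact (_root_.map_ne_zero _).2 hc ht.symm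
  have htF : algebraMap k'[X] F (C t) ≠ 0 := by simpa using ht0
  have hsq : algebraMap k'[X] F (C t) ^ 2 = algebraMap K F (algebraMap k[X] K (C c)) := by
    rw [← map_pow, ← C_pow, ht, hT.map, map_C]
  obtain ⟨e, he, hh⟩ := h
  refine ⟨algebraMap k'[X] F (C t) * e, mul_ne_zero htF he, ?_⟩
  rw [mul_pow, hsq, mul_assoc, ← hh, map_mul, map_mul]

/-- (from `Pool.Agent.R939.EI.Gen4`) -/
theorem dvd_prod_irr {s : ℕ} {q : Fin s → k[X]} (hq : ∀ i, Irreducible (q i)) (T : Finset (Fin s)) :
    ∀ A : k[X], A ∣ ∏ i ∈ T, q i → ∃ S : Finset (Fin s), S ⊆ T ∧ Associated A (∏ i ∈ S, q i) := by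
  induction T using Finset.induction_on with
  | empty =>
    intro A hA
    rw [Finset.prod_empty] at hA
    exact ⟨∅, Finset.Subset.refl _, by
      rw [Finset.prod_empty]
      exact associated_one_iff_isUnit.2 (isUnit_of_dvd_one hA)⟩
  | insert i T hi ih =>
    intro A hA
    rw [Finset.prod_insert hi] at hA
    by_cases h : q i ∣ A
    · obtain ⟨A', rfl⟩ := h
      obtain ⟨S, hS, hS'⟩ := ih A' ((mul_dvd_mul_iff_left (hq i).ne_zero).1 hA)
      refine ⟨insert i S, Finset.insert_subset_insert i hS, ?_⟩
      rw [Finset.prod_insert fun h => hi (hS h)]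
      exact hS'.mul_left _
    · have hcop : IsCoprime (q i) A := (hq i).coprime_iff_not_dvd.2 h
      obtain ⟨S, hS, hS'⟩ := ih A (hcop.symm.dvd_of_dvd_mul_left hA)
      exact ⟨S, hS.trans (Finset.subset_insert i T), hS'⟩

end const

end Pool.Agent.H709.TS
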