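import Pool.Agent.TH115.ID.Defs
import Pool.Agent.W309.TD.Stmt

/-!
# Elliptic surfaces with given sections: definitions
-/

set_option autoImplicit false
set_option linter.all false

open Polynomial IsDedekindDomain WeierstrassCurve WeierstrassCurve.Affine
open scoped Classical

namespace Pool.Agent.H709.TS

open Pool.Agent.TH115.GD Pool.Agent.W309
open Pool.Agent.W309.TD (SqStable)

/-- `q 0, …, q r` are irreducible polynomials, pairwise not associated, `w i ^ 2 = q i + a + b / q i`
for `i = 1, …, r`, where `b = q 0 ⋯ q r` (so `(q i, q i w i)` is a point of the curve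
`y ^ 2 = x (x ^ 2 + a x + b)`), and `a ^ 2 - 4 b` is irreducible. -/
structure HasSections {k : Type} [Field k] {r : ℕ} (q : Fin (r + 1) → k[X]) (a : k[X])
    (w : Fin r → k[X]) : Prop where
  irr : ∀ i, Irreducible (q i)
  ndvd : ∀ i j, i ≠ j → ¬ q i ∣ q j
  sec : ∀ i : Fin r, w i ^ 2 = q i.succ + a + ∏ j ∈ Finset.univ.erase i.succ, q j
  disc : Irreducible (a ^ 2 - 4 * ∏ i, q i)

/-- `HasSections`, and the polynomials are separable, and no element of `k` which is not a square
becomes a square in `k[t] / (a² - 4 b)`; the same for at least one of the `k[t] / (q i)`. -/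
structure IsData {k : Type} [Field k] {r : ℕ} (q : Fin (r + 1) → k[X]) (a : k[X])
    (w : Fin r → k[X]) : Prop where
  sections : HasSections q a w
  sep : ∀ i, (q i).Separable
  sepD : (a ^ 2 - 4 * ∏ i, q i).Separable
  stable : ∃ i, SqStable (q i)
  stableD : SqStable (a ^ 2 - 4 * ∏ i, q i)

/-- The curve `y² = x (x² + a x + b)` over `K`, `a`, `b` in `k[t]`. -/
noncomputable def cur {k : Type} [Field k] (K : Type) [Field K] [Algebra k[X] K] (a b : k[X]) :
    WeierstrassCurve K :=
  crvT (algebraMap k[X] K a) (algebraMap k[X] K b)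

/-- `T = (0, 0)` and the `P i = (x i, x i w i)` are points of the curve over `K`, the latter are linearly
independent, and every point over `K` is the sum of a multiple of `T`, of some of the `P i` and of `2 Q`
with a point `Q` over `K`. -/
def Generate {k : Type} [Field k] (K : Type) [Field K] [Algebra k[X] K] (a b : k[X]) {r : ℕ}
    (x w : Fin r → k[X]) : Prop :=
  ∃ (T : Pt (cur K a b) K) (P : Fin r → Pt (cur K a b) K),
    (∃ h, T = Point.some 0 0 h) ∧
    (∀ i, ∃ h, P i = Point.some (algebraMap k[X] K (x i)) (algebraMap k[X] K (x i * w i)) h) ∧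
    LinearIndependent ℤ P ∧
    ∀ P0 : Pt (cur K a b) K, ∃ (Q : Pt (cur K a b) K) (U : Finset (Fin r)) (e : ℕ),
      P0 = 2 • Q + (e • T + ∑ i ∈ U, P i)

/-- The conclusions for `E : y² = x (x² + a x + b)` over `K = k(t)`, `F = k'(t)`, and the points
`(x i, x i w i)`:
* the Tate conjecture at 2;
* the points are independent and generate `E(K) / 2 E(K)` together with `(0, 0)`;
* the classes of 2-power order in `H¹(K, E)` which are trivial over the completions of `K` at all the
  maximal ideals of `k[t]` are zero. -/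
def HoldsFor {k : Type} [Field k] (k' K F : Type) [Field k'] [Field K] [Algebra k[X] K]
    [IsFractionRing k[X] K] [Field F] [Algebra k'[X] F] [IsFractionRing k'[X] F] [Algebra K F]
    (a b : k[X]) {r : ℕ} (x w : Fin r → k[X]) : Prop :=
  TateAtTwo (F := F) k' (cur K a b) ∧ Generate K a b x w ∧
    Sha.ShaTwoTrivial k[X] (cur K a b)

section family

variable {k : Type} [Field k]

/-- The fourth polynomial `p` of the family with three sections, which is given by
`(l - m) (l m p - 1) = (l m - s) (l q - m r)`. -/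
noncomputable def pThree (l m : k) (q r s : k[X]) : k[X] :=
  C (l * m)⁻¹ * (1 + C (l - m)⁻¹ * ((C (l * m) - s) * (C l * q - C m * r)))

/-- The coefficient `a` of the family with three sections: `a = w² - p - q r s` with
`w = (l (p - q) + (1 - r s) / l) / 2`. -/
noncomputable def aThree (l m : k) (q r s : k[X]) : k[X] :=
  (C (2⁻¹) * (C l * (pThree l m q r s - q) + C l⁻¹ * (1 - r * s))) ^ 2 - pThree l m q r s -
    q * r * s

/-- The `w` of the three points with `x = p`, `x = q`, `x = r`. -/
noncomputable def wThree (l m : k) (p q r s : k[X]) : Fin 3 → k[X] :=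
  ![C (2⁻¹) * (C l * (p - q) + C l⁻¹ * (1 - r * s)),
    C (2⁻¹) * (C l⁻¹ * (1 - r * s) - C l * (p - q)),
    C (2⁻¹) * (C m⁻¹ * (1 - q * s) - C m * (p - r))]

/-- `l ≠ m` are nonzero constants, `p` is given by `(l - m) (l m p - 1) = (l m - s) (l q - m r)`, the
polynomials `p`, `q`, `r`, `s` are irreducible and no two of them are associated, and `a² - 4 b` is
irreducible for `a = aThree l m q r s`, `b = p q r s`. -/
structure IsThree (l m : k) (p q r s : k[X]) : Prop where
  l_ne : l ≠ 0
  m_ne : m ≠ 0
  ne : l ≠ m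
  eq : p = pThree l m q r s
  irrp : Irreducible p
  irrq : Irreducible q
  irrr : Irreducible r
  irrs : Irreducible s
  pq : ¬ p ∣ q
  pr : ¬ p ∣ r
  ps : ¬ p ∣ s
  qr : ¬ q ∣ r
  qs : ¬ q ∣ s
  rs : ¬ r ∣ s
  disc : Irreducible (aThree l m q r s ^ 2 - 4 * (p * q * r * s))

end family

/-- `t ^ (2 n) + 1` -/
noncomputable def exA (k : Type) [Field k] (n : ℕ) : k[X] := X ^ (2 * n) + 1

/-- `(t ^ (2 n) - 16) (t ^ (2 n) + t ^ n - 4) (t ^ (3 n) + t ^ (2 n) - 4) / 16` -/
noncomputable def exB (k : Type) [Field k] (n : ℕ) : k[X] :=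
  C (16⁻¹) * ((X ^ (2 * n) - 16) * (X ^ (2 * n) + X ^ n - 4) * (X ^ (3 * n) + X ^ (2 * n) - 4))

end Pool.Agent.H709.TS
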