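import Mathlib
import Pool.Agent.R915.It.Irr

/-!
# The irreducible polynomials of the example
-/

set_option autoImplicit false
set_option linter.all false

open Polynomial

namespace Pool.Agent.H709.TS

/-- `X ^ 7 + 2 X ^ 6 - 19 X ^ 5 - 44 X ^ 4 + 44 X ^ 3 + 136 X ^ 2 + 64 X - 260` -/
noncomputable def F5 : ℤ[X] :=
  X ^ 7 + 2 * X ^ 6 - 19 * X ^ 5 - 44 * X ^ 4 + 44 * X ^ 3 + 136 * X ^ 2 + 64 * X - 260

noncomputable def F4 : ℤ[X] := X ^ 3 + X ^ 2 - 4

noncomputable def F3 : ℤ[X] := X ^ 2 + X - 4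

theorem F5_monic : F5.Monic := by unfold F5; monicity!

theorem F5_deg : F5.natDegree = 7 := by unfold F5; compute_degree!

theorem F5_coeff : F5.coeff 0 = -260 ∧ F5.coeff 1 = 64 ∧ F5.coeff 2 = 136 ∧ F5.coeff 3 = 44 ∧
    F5.coeff 4 = -44 ∧ F5.coeff 5 = -19 ∧ F5.coeff 6 = 2 := by
  have e : F5 = X ^ 7 + C 2 * X ^ 6 - C 19 * X ^ 5 - C 44 * X ^ 4 + C 44 * X ^ 3 + C 136 * X ^ 2 +
      C 64 * X - C 260 := rfl
  rw [e]
  refine ⟨?_, ?_, ?_, ?_, ?_, ?_, ?_⟩ <;>
  simp [coeff_X, coeff_C, coeff_X_pow]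

theorem dec1 : ∀ c : ZMod 7, ¬ ((c : ZMod 7) ^ 7 + 2 * c ^ 6 - 19 * c ^ 5 - 44 * c ^ 4 +
    44 * c ^ 3 + 136 * c ^ 2 + 64 * c - 260 = 0) := by
  decide +kernel

/-- no quadratic factor modulo 5 -/
theorem dec2 : ∀ a b : ZMod 5,
    ¬ (let f4 := 2 - a
       let f3 := -19 - a * f4 - b
       let f2 := -44 - a * f3 - b * f4
       let f1 := 44 - a * f2 - b * f3
       let f0 := 136 - a * f1 - b * f2
       a * f0 + b * f1 = 64 ∧ b * f0 = -260) := by
  decide +kernel

/-- no cubic factor modulo 5 -/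
theorem dec3 : ∀ a b c : ZMod 5,
    ¬ (let f3 := 2 - a
       let f2 := -19 - a * f3 - b
       let f1 := -44 - a * f2 - b * f3 - c
       let f0 := 44 - a * f1 - b * f2 - c * f3
       a * f0 + b * f1 + c * f2 = 136 ∧ b * f0 + c * f1 = 64 ∧ c * f0 = -260) := by
  decide +kernel

theorem coeff_top {R : Type*} [Semiring R] {f : R[X]} (hf : f.Monic) {k : ℕ}
    (h : f.natDegree = k) : f.coeff k = 1 := by
  subst h; exact hf

theorem F5_irr : Irreducible F5 := by
  rw [F5_monic.irreducible_iff_natDegree']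
  refine ⟨fun h => ?_, fun f g hf hg hfg hdeg => ?_⟩
  · have := F5_deg
    rw [h] at this
    simp at this
  rw [F5_deg, Finset.mem_Ioc] at hdeg
  have hsum : f.natDegree + g.natDegree = 7 := by rw [← hf.natDegree_mul hg, hfg, F5_deg]
  obtain ⟨c0, c1, c2, c3, c4, c5, c6⟩ := F5_coeff
  rw [← hfg, coeff_mul] at c0 c1 c2 c3 c4 c5 c6
  simp only [Finset.Nat.antidiagonal_succ, Finset.Nat.antidiagonal_zero, Finset.map_singleton,
      Finset.sum_cons, Finset.sum_singleton, Finset.map_cons, Function.Embedding.prodMap,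
      Function.Embedding.coeFn_mk, Prod.map] at c0 c1 c2 c3 c4 c5 c6
  obtain h | h | h : g.natDegree = 1 ∨ g.natDegree = 2 ∨ g.natDegree = 3 := by omega
  · -- a root
    have hg1 : g = X + C (g.coeff 0) := by
      have := g.as_sum_range_C_mul_X_pow
      rw [h, Finset.sum_range_succ, Finset.sum_range_one, coeff_top hg h] at this
      rw [this]
      simp
      ring
    have hroot : F5.eval (-(g.coeff 0)) = 0 := by
      rw [← hfg, eval_mul]
      have : g.eval (-(g.coeff 0)) = 0 := by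
        conv_lhs => rw [hg1]
        simp
      rw [this, mul_zero]
    have h7 := congrArg (Int.cast : ℤ → ZMod 7) hroot
    unfold F5 at h7
    simp only [eval_add, eval_sub, eval_mul, eval_pow, eval_X, eval_ofNat] at h7
    push_cast at h7
    exact dec1 (-((g.coeff 0 : ℤ) : ZMod 7)) (by rw [← h7])
  · have hfd : f.natDegree = 5 := by omega
    have g2 : g.coeff 2 = 1 := coeff_top hg h
    have f5 : f.coeff 5 = 1 := coeff_top hf hfd
    have g3 : g.coeff 3 = 0 := coeff_eq_zero_of_natDegree_lt (by omega)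
    have g4 : g.coeff 4 = 0 := coeff_eq_zero_of_natDegree_lt (by omega)
    have g5 : g.coeff 5 = 0 := coeff_eq_zero_of_natDegree_lt (by omega)
    have g6 : g.coeff 6 = 0 := coeff_eq_zero_of_natDegree_lt (by omega)
    have f6 : f.coeff 6 = 0 := coeff_eq_zero_of_natDegree_lt (by omega)
    simp [g2, g3, g4, g5, g6, f5, f6] at c0 c1 c2 c3 c4 c5 c6
    apply dec2 (g.coeff 1 : ZMod 5) (g.coeff 0 : ZMod 5)
    have e4 : ((f.coeff 4 : ℤ) : ZMod 5) = 2 - (g.coeff 1 : ZMod 5) := by
      have := congrArg (Int.cast : ℤ → ZMod 5) c6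
      push_cast at this
      linear_combination this
    have e3 : ((f.coeff 3 : ℤ) : ZMod 5) = -19 - (g.coeff 1 : ZMod 5) * (f.coeff 4 : ZMod 5) -
        (g.coeff 0 : ZMod 5) := by
      have := congrArg (Int.cast : ℤ → ZMod 5) c5
      push_cast at this
      linear_combination this
    have e2 : ((f.coeff 2 : ℤ) : ZMod 5) = -44 - (g.coeff 1 : ZMod 5) * (f.coeff 3 : ZMod 5) -
        (g.coeff 0 : ZMod 5) * (f.coeff 4 : ZMod 5) := by
      have := congrArg (Int.cast : ℤ → ZMod 5) c4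
      push_cast at this
      linear_combination this
    have e1 : ((f.coeff 1 : ℤ) : ZMod 5) = 44 - (g.coeff 1 : ZMod 5) * (f.coeff 2 : ZMod 5) -
        (g.coeff 0 : ZMod 5) * (f.coeff 3 : ZMod 5) := by
      have := congrArg (Int.cast : ℤ → ZMod 5) c3
      push_cast at this
      linear_combination this
    have e0 : ((f.coeff 0 : ℤ) : ZMod 5) = 136 - (g.coeff 1 : ZMod 5) * (f.coeff 1 : ZMod 5) -
        (g.coeff 0 : ZMod 5) * (f.coeff 2 : ZMod 5) := by
      have := congrArg (Int.cast : ℤ → ZMod 5) c2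
      push_cast at this
      linear_combination this
    have l1 := congrArg (Int.cast : ℤ → ZMod 5) c1
    have l0 := congrArg (Int.cast : ℤ → ZMod 5) c0
    push_cast at l1 l0
    show _ ∧ _
    rw [← e4, ← e3, ← e2, ← e1, ← e0]
    constructor
    · linear_combination l1
    · linear_combination l0
  · have hfd : f.natDegree = 4 := by omega
    have g3 : g.coeff 3 = 1 := coeff_top hg h
    have f4 : f.coeff 4 = 1 := coeff_top hf hfd
    have g4 : g.coeff 4 = 0 := coeff_eq_zero_of_natDegree_lt (by omega)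
    have g5 : g.coeff 5 = 0 := coeff_eq_zero_of_natDegree_lt (by omega)
    have g6 : g.coeff 6 = 0 := coeff_eq_zero_of_natDegree_lt (by omega)
    have f5 : f.coeff 5 = 0 := coeff_eq_zero_of_natDegree_lt (by omega)
    have f6 : f.coeff 6 = 0 := coeff_eq_zero_of_natDegree_lt (by omega)
    simp [g3, g4, g5, g6, f4, f5, f6] at c0 c1 c2 c3 c4 c5 c6
    apply dec3 (g.coeff 2 : ZMod 5) (g.coeff 1 : ZMod 5) (g.coeff 0 : ZMod 5)
    have e3 : ((f.coeff 3 : ℤ) : ZMod 5) = 2 - (g.coeff 2 : ZMod 5) := by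
      have := congrArg (Int.cast : ℤ → ZMod 5) c6
      push_cast at this
      linear_combination this
    have e2 : ((f.coeff 2 : ℤ) : ZMod 5) = -19 - (g.coeff 2 : ZMod 5) * (f.coeff 3 : ZMod 5) -
        (g.coeff 1 : ZMod 5) := by
      have := congrArg (Int.cast : ℤ → ZMod 5) c5
      push_cast at this
      linear_combination this
    have e1 : ((f.coeff 1 : ℤ) : ZMod 5) = -44 - (g.coeff 2 : ZMod 5) * (f.coeff 2 : ZMod 5) -
        (g.coeff 1 : ZMod 5) * (f.coeff 3 : ZMod 5) - (g.coeff 0 : ZMod 5) := by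
      have := congrArg (Int.cast : ℤ → ZMod 5) c4
      push_cast at this
      linear_combination this
    have e0 : ((f.coeff 0 : ℤ) : ZMod 5) = 44 - (g.coeff 2 : ZMod 5) * (f.coeff 1 : ZMod 5) -
        (g.coeff 1 : ZMod 5) * (f.coeff 2 : ZMod 5) -
        (g.coeff 0 : ZMod 5) * (f.coeff 3 : ZMod 5) := by
      have := congrArg (Int.cast : ℤ → ZMod 5) c3
      push_cast at this
      linear_combination this
    have l2 := congrArg (Int.cast : ℤ → ZMod 5) c2
    have l1 := congrArg (Int.cast : ℤ → ZMod 5) c1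
    have l0 := congrArg (Int.cast : ℤ → ZMod 5) c0
    push_cast at l2 l1 l0
    show _ ∧ _ ∧ _
    rw [← e3, ← e2, ← e1, ← e0]
    refine ⟨?_, ?_, ?_⟩
    · linear_combination l2
    · linear_combination l1
    · linear_combination l0

theorem F4_monic : F4.Monic := by unfold F4; monicity!

theorem F3_monic : F3.Monic := by unfold F3; monicity!

theorem F4_deg : F4.natDegree = 3 := by unfold F4; compute_degree!

theorem F3_deg : F3.natDegree = 2 := by unfold F3; compute_degree!

theorem dec4 : ∀ c : ZMod 3, ¬ (c ^ 3 + c ^ 2 - 4 = 0) ∧ ¬ (c ^ 2 + c - 4 = 0) := by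
  decide +kernel

theorem F4_irr : Irreducible F4 := by
  rw [F4_monic.irreducible_iff_roots_eq_zero_of_degree_le_three (by rw [F4_deg]; norm_num)
    (by rw [F4_deg])]
  rw [Multiset.eq_zero_iff_forall_notMem]
  intro x hx
  have h := isRoot_of_mem_roots hx
  rw [IsRoot.def] at h
  have h7 := congrArg (Int.cast : ℤ → ZMod 3) h
  unfold F4 at h7
  simp only [eval_add, eval_sub, eval_mul, eval_pow, eval_X, eval_ofNat] at h7
  push_cast at h7
  exact (dec4 ((x : ℤ) : ZMod 3)).1 h7

theorem F3_irr : Irreducible F3 := by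
  rw [F3_monic.irreducible_iff_roots_eq_zero_of_degree_le_three (by rw [F3_deg])
    (by rw [F3_deg]; norm_num)]
  rw [Multiset.eq_zero_iff_forall_notMem]
  intro x hx
  have h := isRoot_of_mem_roots hx
  rw [IsRoot.def] at h
  have h7 := congrArg (Int.cast : ℤ → ZMod 3) h
  unfold F3 at h7
  simp only [eval_add, eval_sub, eval_mul, eval_pow, eval_X, eval_ofNat] at h7
  push_cast at h7
  exact (dec4 ((x : ℤ) : ZMod 3)).2 h7

/-- `4 m` with `m` odd is not an `ℓ`-th power for odd primes `ℓ`. -/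
theorem not_pow {m : ℤ} (hm : Odd m) {l : ℕ} (hl : l.Prime) (hlo : Odd l) (z : ℚ) :
    z ^ l ≠ ((4 * m : ℤ) : ℚ) := by
  intro h
  have hm0 : m ≠ 0 := by
    rintro rfl
    exact absurd hm (by decide)
  have h4m : ((4 * m : ℤ) : ℚ) ≠ 0 := by
    exact_mod_cast mul_ne_zero (by norm_num) hm0
  have hz : z ≠ 0 := by
    rintro rfl
    rw [zero_pow hl.ne_zero] at h
    exact h4m h.symm
  haveI : Fact (Nat.Prime 2) := ⟨Nat.prime_two⟩
  have h1 := congrArg (padicValRat 2) h
  rw [padicValRat.pow, padicValRat.of_int] at h1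
  have h3 : padicValInt 2 (4 * m) = 2 := by
    rw [padicValInt.mul (by norm_num) hm0]
    have e1 : padicValInt 2 4 = 2 := by
      have : (4 : ℤ) = ((2 ^ 2 : ℕ) : ℤ) := by norm_num
      rw [this, padicValInt.of_nat, padicValNat.prime_pow]
    have e2 : padicValInt 2 m = 0 := by
      rw [padicValInt.eq_zero_iff]
      right; right
      intro h5
      exact (Int.not_even_iff_odd.2 hm) ((even_iff_two_dvd).2 (by exact_mod_cast h5))
    rw [e1, e2]
  rw [h3] at h1
  have h5 : (l : ℤ) ∣ 2 := ⟨_, h1.symm⟩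
  have h6 : l ∣ 2 := by exact_mod_cast h5
  have h7 := (Nat.prime_dvd_prime_iff_eq hl Nat.prime_two).1 h6
  rw [h7] at hlo
  exact absurd hlo (by decide)

theorem irr_Q {f : ℤ[X]} (hf : f.Monic) (hi : Irreducible f) {m : ℤ} (hm : Odd m)
    (h0 : f.coeff 0 = 4 * m) {n : ℕ} (hn : Odd n) :
    Irreducible ((f.map (Int.castRingHom ℚ)).comp (X ^ n)) := by
  have hi' : Irreducible (f.map (Int.castRingHom ℚ)) :=
    (IsPrimitive.Int.irreducible_iff_irreducible_map_cast hf.isPrimitive).1 hi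
  have := Pool.Agent.R915.It.irr_step (hf.map (Int.castRingHom ℚ)) hi' hn 0 (by
    intro l hl hln z
    have e : (f.map (Int.castRingHom ℚ)).eval 0 = ((4 * m : ℤ) : ℚ) := by
      rw [← coeff_zero_eq_eval_zero, coeff_map, h0]
      simp
    rw [e]
    exact not_pow hm hl (Odd.of_dvd_nat hn hln) z)
  rwa [C_0, add_zero] at this

/-- irreducible polynomials over a field which is algebraically closed in `k` -/
theorem irr_map {k : Type} [Field k] [CharZero k]
    (hk : ∀ x : k, IsAlgebraic ℚ x → ∃ y : ℚ, (y : k) = x) {f : ℚ[X]} (hf : f.Monic)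
    (hi : Irreducible f) : Irreducible (f.map (algebraMap ℚ k)) := by
  have hlift : ∀ g : k[X], g.Monic → g ∣ f.map (algebraMap ℚ k) →
      ∃ g' : ℚ[X], g'.map (algebraMap ℚ k) = g ∧ g'.natDegree = g.natDegree ∧ g'.Monic := by
    intro g hg hd
    have h1 := integralClosure.mem_lifts_of_monic_of_dvd_map k hf hg hd
    have h3 : g ∈ lifts (algebraMap ℚ k) := by
      rw [lifts_iff_coeff_lifts] at h1 ⊢
      intro j
      obtain ⟨c, hc⟩ := h1 j
      obtain ⟨y, hy⟩ := hk (g.coeff j) (by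
        rw [← hc]
        exact c.2.isAlgebraic)
      exact ⟨y, by rw [← hy]; rfl⟩
    obtain ⟨g', h4, h5, h6⟩ := lifts_and_natDegree_eq_and_monic h3 hg
    exact ⟨g', h4, h5, h6⟩
  rw [(hf.map (algebraMap ℚ k)).irreducible_iff_natDegree']
  rw [hf.irreducible_iff_natDegree'] at hi
  refine ⟨fun h => hi.1 ?_, fun g h hg hh hgh hdeg => ?_⟩
  · exact map_injective (algebraMap ℚ k) (algebraMap ℚ k).injective (by rw [h, Polynomial.map_one])
  · obtain ⟨g', hg1, hg2, hg3⟩ := hlift g hg ⟨h, hgh.symm⟩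
    obtain ⟨h', hh1, hh2, hh3⟩ := hlift h hh ⟨g, by rw [mul_comm]; exact hgh.symm⟩
    refine hi.2 g' h' hg3 hh3 ?_ ?_
    · apply map_injective (algebraMap ℚ k) (algebraMap ℚ k).injective
      rw [Polynomial.map_mul, hg1, hh1, hgh]
    · rw [hh2]
      rwa [natDegree_map] at hdeg

theorem irr_k {k : Type} [Field k] [CharZero k]
    (hk : ∀ x : k, IsAlgebraic ℚ x → ∃ y : ℚ, (y : k) = x) {f : ℤ[X]} (hf : f.Monic)
    (hi : Irreducible f) {m : ℤ} (hm : Odd m) (h0 : f.coeff 0 = 4 * m) {n : ℕ} (hn : Odd n) :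
    Irreducible ((f.map (Int.castRingHom k)).comp (X ^ n)) := by
  have hn0 : n ≠ 0 := by
    rintro rfl
    exact absurd hn (by decide)
  have h1 := irr_map hk ((hf.map (Int.castRingHom ℚ)).comp (monic_X_pow n) (by
    rwa [natDegree_X_pow])) (irr_Q hf hi hm h0 hn)
  rw [Polynomial.map_comp, Polynomial.map_pow, map_X, Polynomial.map_map] at h1
  have e : (algebraMap ℚ k).comp (Int.castRingHom ℚ) = Int.castRingHom k :=
    RingHom.ext_int _ _
  rwa [e] at h1

end Pool.Agent.H709.TS
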