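import Pool.Agent.H709.TS.Fam
import Pool.Agent.H709.TS.Irr

/-!
# The example: three sections of infinite order, unbounded genus
-/

set_option autoImplicit false
set_option linter.all false

open Polynomial IsDedekindDomain WeierstrassCurve WeierstrassCurve.Affine
open scoped Classical

namespace Pool.Agent.H709.TS

open Pool.Agent.TH115.GD

section alg

variable {k : Type} [Field k] [CharZero k]

theorem c4 : (C (4⁻¹) : k[X]) * 4 = 1 := by
  have h4 : (4 : k) ≠ 0 := by norm_num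
  have : (4 : k[X]) = C 4 := by rw [map_ofNat]
  rw [this, ← C_mul, inv_mul_cancel₀ h4, C_1]

theorem c2 : (C (2⁻¹) : k[X]) = 2 * C (4⁻¹) := by
  have : (2 : k[X]) = C 2 := by rw [map_ofNat]
  rw [this, ← C_mul]
  congr 1
  norm_num

theorem c16 : (C (16⁻¹) : k[X]) = C (4⁻¹) * C (4⁻¹) := by
  rw [← C_mul]
  congr 1
  norm_num

theorem ex_p (T : k[X]) : pThree 1 (-1) (T + 4) (T - 4) (C (4⁻¹) * (T ^ 2 + T - 4)) =
    C (4⁻¹) * (T ^ 3 + T ^ 2 - 4) := by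
  unfold pThree
  have e1 : ((1 : k) * -1)⁻¹ = -1 := by norm_num
  have e2 : ((1 : k) - -1)⁻¹ = 2⁻¹ := by norm_num
  rw [e1, e2, c2]
  simp only [one_mul, C_neg, C_1]
  have h4 := c4 (k := k)
  linear_combination (1 + C (4⁻¹) * T * (T ^ 2 + T - 4)) * h4

theorem ex_a (T : k[X]) : aThree 1 (-1) (T + 4) (T - 4) (C (4⁻¹) * (T ^ 2 + T - 4)) =
    T ^ 2 + 1 := by
  unfold aThree
  rw [ex_p, c2]
  have e1 : ((1 : k))⁻¹ = 1 := by norm_num
  simp only [e1, C_1, one_mul]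
  have h4 := c4 (k := k)
  have e2 : C (4⁻¹) * (T ^ 3 + T ^ 2 - 4) - (T + 4) + (1 - (T - 4) * (C (4⁻¹) * (T ^ 2 + T - 4))) =
      T ^ 2 + T - 8 := by
    linear_combination (T ^ 2 + 2 * T - 5) * h4
  rw [e2]
  linear_combination (C (4⁻¹) * (T ^ 2 + T - 8) ^ 2 + T ^ 2 + 1) * h4

theorem ex_b (T : k[X]) : C (4⁻¹) * (T ^ 3 + T ^ 2 - 4) * (T + 4) * (T - 4) *
    (C (4⁻¹) * (T ^ 2 + T - 4)) =
      C (16⁻¹) * ((T ^ 2 - 16) * (T ^ 2 + T - 4) * (T ^ 3 + T ^ 2 - 4)) := by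
  rw [c16]
  ring

theorem ex_d (T : k[X]) : (T ^ 2 + 1) ^ 2 - 4 * (C (4⁻¹) * (T ^ 3 + T ^ 2 - 4) * (T + 4) * (T - 4) *
    (C (4⁻¹) * (T ^ 2 + T - 4))) = -C (4⁻¹) * (T ^ 7 + 2 * T ^ 6 - 19 * T ^ 5 - 44 * T ^ 4 +
      44 * T ^ 3 + 136 * T ^ 2 + 64 * T - 260) := by
  have h4 := c4 (k := k)
  linear_combination (-(T ^ 2 + 1) ^ 2 - C (4⁻¹) * (T ^ 3 + T ^ 2 - 4) * (T + 4) * (T - 4) *
    (T ^ 2 + T - 4)) * h4

variable (k) in
theorem F5_k (n : ℕ) : (F5.map (Int.castRingHom k)).comp (X ^ n) =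
    (X ^ n) ^ 7 + 2 * (X ^ n) ^ 6 - 19 * (X ^ n) ^ 5 - 44 * (X ^ n) ^ 4 +
      44 * (X ^ n) ^ 3 + 136 * (X ^ n) ^ 2 + 64 * (X ^ n) - 260 := by
  unfold F5
  simp

variable (k) in
theorem F4_k (n : ℕ) : (F4.map (Int.castRingHom k)).comp (X ^ n) =
    (X ^ n) ^ 3 + (X ^ n) ^ 2 - 4 := by
  unfold F4
  simp

variable (k) in
theorem F3_k (n : ℕ) : (F3.map (Int.castRingHom k)).comp (X ^ n) =
    (X ^ n) ^ 2 + (X ^ n) - 4 := by
  unfold F3
  simp

variable (k) in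
theorem F1_k (c : ℤ) (n : ℕ) : (((X : ℤ[X]) + C c).map (Int.castRingHom k)).comp (X ^ n) =
    X ^ n + C (c : k) := by
  simp

variable (hk : ∀ x : k, IsAlgebraic ℚ x → ∃ y : ℚ, (y : k) = x)

include hk in
theorem irr5 {n : ℕ} (hn : Odd n) : Irreducible ((X ^ n : k[X]) ^ 7 + 2 * (X ^ n) ^ 6 -
    19 * (X ^ n) ^ 5 - 44 * (X ^ n) ^ 4 + 44 * (X ^ n) ^ 3 + 136 * (X ^ n) ^ 2 + 64 * (X ^ n) -
      260) := by
  rw [← F5_k]
  exact irr_k hk F5_monic F5_irr (m := -65) (by decide) (by rw [F5_coeff.1]; norm_num) hn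

include hk in
theorem irr4 {n : ℕ} (hn : Odd n) : Irreducible ((X ^ n : k[X]) ^ 3 + (X ^ n) ^ 2 - 4) := by
  rw [← F4_k]
  exact irr_k hk F4_monic F4_irr (m := -1) (by decide) (by unfold F4; simp [coeff_X]) hn

include hk in
theorem irr3 {n : ℕ} (hn : Odd n) : Irreducible ((X ^ n : k[X]) ^ 2 + (X ^ n) - 4) := by
  rw [← F3_k]
  exact irr_k hk F3_monic F3_irr (m := -1) (by decide) (by unfold F3; simp [coeff_X]) hn

include hk in
theorem irr1 {m : ℤ} (hm : Odd m) {n : ℕ} (hn : Odd n) :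
    Irreducible ((X ^ n : k[X]) + C ((4 * m : ℤ) : k)) := by
  rw [← F1_k]
  refine irr_k hk (monic_X_add_C _) ?_ hm (by simp) hn
  have := irreducible_X_sub_C (-(4 * m) : ℤ)
  rwa [C_neg, sub_neg_eq_add] at this

theorem dvd_deg {f g : k[X]} (hf : Irreducible f) (hg : Irreducible g) (h : f ∣ g) :
    f.natDegree = g.natDegree :=
  natDegree_eq_of_degree_eq (degree_eq_degree_of_associated (hf.associated_of_dvd hg h))

theorem deg1 (c : ℤ) (n : ℕ) : ((X ^ n : k[X]) + C (c : k)).natDegree = n := by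
  rw [← F1_k, natDegree_comp, (monic_X_add_C c).natDegree_map, natDegree_X_add_C, one_mul,
    natDegree_X_pow]

theorem deg3 (n : ℕ) : ((X ^ n : k[X]) ^ 2 + (X ^ n) - 4).natDegree = 2 * n := by
  rw [← F3_k, natDegree_comp, F3_monic.natDegree_map, F3_deg, natDegree_X_pow]

theorem deg4 (n : ℕ) : ((X ^ n : k[X]) ^ 3 + (X ^ n) ^ 2 - 4).natDegree = 3 * n := by
  rw [← F4_k, natDegree_comp, F4_monic.natDegree_map, F4_deg, natDegree_X_pow]

theorem deg5 (n : ℕ) : ((X ^ n : k[X]) ^ 7 + 2 * (X ^ n) ^ 6 -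
    19 * (X ^ n) ^ 5 - 44 * (X ^ n) ^ 4 + 44 * (X ^ n) ^ 3 + 136 * (X ^ n) ^ 2 + 64 * (X ^ n) -
      260).natDegree = 7 * n := by
  rw [← F5_k, natDegree_comp, F5_monic.natDegree_map, F5_deg, natDegree_X_pow]

end alg

section main

variable {k : Type} [Field k] [CharZero k]

theorem irr_smul {c : k} (hc : c ≠ 0) {f : k[X]} (hf : Irreducible f) : Irreducible (C c * f) :=
  (irreducible_isUnit_mul (isUnit_C.2 (isUnit_iff_ne_zero.2 hc))).2 hf

/-- The data of the example. -/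
theorem ex_has (hk : ∀ x : k, IsAlgebraic ℚ x → ∃ y : ℚ, (y : k) = x) {n : ℕ} (hn : Odd n) :
    ∃ (q : Fin 4 → k[X]) (w : Fin 3 → k[X]), HasSections (r := 3) q (exA k n) w ∧
      ∏ i, q i = exB k n ∧ (q 2).natDegree = n ∧
        (exA k n ^ 2 - 4 * exB k n).natDegree = 7 * n := by
  set T : k[X] := X ^ n with hT
  have hn0 : n ≠ 0 := by
    rintro rfl
    exact absurd hn (by decide)
  have h4 : (4⁻¹ : k) ≠ 0 := by norm_num
  have eA : exA k n = T ^ 2 + 1 := by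
    unfold exA
    rw [hT, ← pow_mul, mul_comm n 2]
  have eB : exB k n = C (4⁻¹) * (T ^ 3 + T ^ 2 - 4) * (T + 4) * (T - 4) *
      (C (4⁻¹) * (T ^ 2 + T - 4)) := by
    rw [ex_b]
    unfold exB
    rw [hT, ← pow_mul, ← pow_mul, mul_comm n 2, mul_comm n 3]
  have eq : T + 4 = T + C ((4 * 1 : ℤ) : k) := by
    congr 1
    push_cast
    rw [map_ofNat]
  have er : T - 4 = T + C ((4 * (-1) : ℤ) : k) := by
    rw [sub_eq_add_neg]
    congr 1
    push_cast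
    rw [C_neg, map_ofNat]
  have iq : Irreducible (T + 4) := by rw [eq]; exact irr1 hk (by decide) hn
  have ir : Irreducible (T - 4) := by rw [er]; exact irr1 hk (by decide) hn
  have is : Irreducible (C (4⁻¹) * (T ^ 2 + T - 4)) := irr_smul h4 (irr3 hk hn)
  have ip : Irreducible (C (4⁻¹) * (T ^ 3 + T ^ 2 - 4)) := irr_smul h4 (irr4 hk hn)
  have dq : (T + 4).natDegree = n := by rw [eq]; exact deg1 _ n
  have dr : (T - 4).natDegree = n := by rw [er]; exact deg1 _ n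
  have ds : (C (4⁻¹) * (T ^ 2 + T - 4)).natDegree = 2 * n := by
    rw [natDegree_C_mul h4]; exact deg3 n
  have dp : (C (4⁻¹) * (T ^ 3 + T ^ 2 - 4)).natDegree = 3 * n := by
    rw [natDegree_C_mul h4]; exact deg4 n
  have hdd : exA k n ^ 2 - 4 * exB k n = C (-(4⁻¹)) * (T ^ 7 + 2 * T ^ 6 - 19 * T ^ 5 -
      44 * T ^ 4 + 44 * T ^ 3 + 136 * T ^ 2 + 64 * T - 260) := by
    rw [eA, eB, ex_d, C_neg]
  have id : Irreducible (exA k n ^ 2 - 4 * exB k n) := by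
    rw [hdd]
    exact irr_smul (neg_ne_zero.2 h4) (irr5 hk hn)
  have ha : aThree 1 (-1) (T + 4) (T - 4) (C (4⁻¹) * (T ^ 2 + T - 4)) = exA k n := by
    rw [ex_a, eA]
  have H := hasThree (l := (1 : k)) (m := -1) two_ne_zero one_ne_zero (by norm_num) (by norm_num)
    (ex_p T).symm ip iq ir is
    (fun h => by have := dvd_deg ip iq h; omega)
    (fun h => by have := dvd_deg ip ir h; omega)
    (fun h => by have := dvd_deg ip is h; omega)
    (fun h => by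
      have h8 : T + 4 ∣ C (8 : k) := by
        have h9 := dvd_sub (dvd_refl (T + 4)) h
        have e : T + 4 - (T - 4) = C (8 : k) := by
          have : (C (8 : k) : k[X]) = 8 := by rw [map_ofNat]
          rw [this]
          ring
        rwa [e] at h9
      exact iq.not_isUnit (isUnit_of_dvd_unit h8 (isUnit_C.2 (isUnit_iff_ne_zero.2 (by norm_num)))))
    (fun h => by have := dvd_deg iq is h; omega)
    (fun h => by have := dvd_deg ir is h; omega)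
    (by rw [ha, ← eB]; exact id)
  rw [ha] at H
  refine ⟨_, _, H, ?_, ?_, ?_⟩
  · rw [Fin.prod_univ_four, eB]
    show C (4⁻¹) * (T ^ 2 + T - 4) * (C (4⁻¹) * (T ^ 3 + T ^ 2 - 4)) * (T + 4) * (T - 4) = _
    ring
  · exact dq
  · rw [hdd, natDegree_C_mul (neg_ne_zero.2 h4)]
    exact deg5 (k := k) n

end main

end Pool.Agent.H709.TS
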