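import Pool.Agent.H709.TS.Sec
import Pool.Agent.X243.CD.RankOne

/-!
# Elliptic surfaces with given sections: the Tate conjecture at 2, the Mordell-Weil group and the
Tate-Shafarevich group
-/

set_option autoImplicit false
set_option linter.all false

open Polynomial IsDedekindDomain WeierstrassCurve WeierstrassCurve.Affine
open scoped Classical

namespace Pool.Agent.H709.TS

open Pool.Agent.TH115.GD Pool.Agent.W309.RK Pool.Agent.W309 Pool.Agent.X243.CD
open Pool.Agent.W309.TD (hp SqStable)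

section stable

variable {k : Type} [Field k]

/-- If `b` is divisible exactly once by a prime `π` such that no constant which is not a square becomes
a square modulo `π`, then `b` is not a constant times a square or a norm from a quadratic extension. -/
theorem notNorm_of_stable {b π g : k[X]} (hπ : Irreducible π) (hs : SqStable π) (hb : b = π * g)
    (hg : ¬ π ∣ g) : NotNorm b := by
  have hg0 : g ≠ 0 := by
    rintro rfl
    exact hg (dvd_zero _)
  have hb0 : b ≠ 0 := by rw [hb]; exact mul_ne_zero hπ.ne_zero hg0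
  intro u D U V e
  have hu : u ≠ 0 := by
    rintro rfl
    rw [C_0, zero_mul] at e
    exact hb0 e
  have huC : IsUnit (C u : k[X]) := isUnit_C.2 (isUnit_iff_ne_zero.2 hu)
  -- if `π` divides `V` then it divides `U`, and `b` twice
  have key : ¬ π ∣ V := by
    rintro ⟨V', rfl⟩
    have h1 : π ∣ C u * (U ^ 2 - C D * (π * V') ^ 2) := by
      rw [← e, hb]
      exact dvd_mul_right _ _
    rw [huC.dvd_mul_left] at h1
    have h2 : π ∣ U ^ 2 := by
      have h3 : π ∣ C D * (π * V') ^ 2 := ⟨C D * π * V' ^ 2, by ring⟩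
      have h4 := dvd_add h1 h3
      rwa [sub_add_cancel] at h4
    obtain ⟨U', rfl⟩ := hπ.prime.dvd_of_dvd_pow h2
    apply hg
    refine ⟨C u * (U' ^ 2 - C D * V' ^ 2), ?_⟩
    apply mul_left_cancel₀ hπ.ne_zero
    rw [← hb, e]
    ring
  refine ⟨fun h => key (by rw [h]; exact dvd_zero _), ?_⟩
  obtain ⟨s, t, hst⟩ := hπ.coprime_iff_not_dvd.2 key
  refine hs D ⟨t * U, ?_⟩
  have h1 : π ∣ U ^ 2 - C D * V ^ 2 := by
    have h3 : π ∣ C u * (U ^ 2 - C D * V ^ 2) := by
      rw [← e, hb]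
      exact dvd_mul_right _ _
    rwa [huC.dvd_mul_left] at h3
  have e2 : C D - (t * U) ^ 2 = π * (C D * s * (1 + t * V)) - t ^ 2 * (U ^ 2 - C D * V ^ 2) := by
    have h3 : s * π = 1 - t * V := by linear_combination hst
    linear_combination (-C D * (1 + t * V)) * h3
  rw [e2]
  exact dvd_sub (dvd_mul_right _ _) (h1.mul_left _)

end stable

section main

variable {k k' K F : Type} [Field k] [Field k'] [Algebra k k'] [Field K] [Algebra k[X] K]
    [Field F] [Algebra k'[X] F] [IsFractionRing k'[X] F] [Algebra K F]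

/-- The sums of some of the points `P i`, and their translates by `T`. -/
def Combos {G : Type} [AddCommGroup G] {r : ℕ} (P : Fin r → G) (T : G) : Set G :=
  {Q | ∃ (U : Finset (Fin r)) (e : ℕ), Q = e • T + ∑ i ∈ U, P i}

theorem points_aux [IsFractionRing k[X] K] (h2 : (2 : k) ≠ 0) {r : ℕ} {q : Fin (r + 1) → k[X]}
    {a : k[X]} {w : Fin r → k[X]} (H : HasSections q a w) :
    ∃ (T : Pt (crvT (algebraMap k[X] K a) (algebraMap k[X] K (∏ i, q i))) K)
      (P : Fin r → Pt (crvT (algebraMap k[X] K a) (algebraMap k[X] K (∏ i, q i))) K),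
      (∃ hn, T = Point.some 0 0 hn) ∧
      (∀ i, ∃ hn, P i = Point.some (algebraMap k[X] K (q i.succ))
        (algebraMap k[X] K (q i.succ * w i)) hn) ∧ LinearIndependent ℤ P ∧
      CompleteIn K a (∏ i, q i) (fun _ => True) (Combos P T) := by
  have inj := IsFractionRing.injective k[X] K
  set aK := algebraMap k[X] K a with haK
  set bK := algebraMap k[X] K (∏ i, q i) with hbK
  have hbK0 : bK ≠ 0 := by
    rw [hbK, Ne, IsFractionRing.to_map_eq_zero_iff]
    exact H.b_ne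
  have h2K : (2 : K) ≠ 0 := tt h2
  have hne : ∀ p : k[X], p ≠ 0 → algebraMap k[X] K p ≠ 0 := fun p hp => by simpa using hp
  have hq0 : ∀ i, algebraMap k[X] K (q i) ≠ 0 := fun i => hne _ (H.irr i).ne_zero
  have hns : ∀ i : Fin r, ((crvT aK bK).baseChange K).toAffine.Nonsingular
      (algebraMap k[X] K (q i.succ)) (algebraMap k[X] K (q i.succ * w i)) := by
    intro i
    refine crv_ns aK bK h2K (hne _ (mul_ne_zero (H.irr _).ne_zero (H.w_ne i))) ?_
    rw [← map_pow, H.eqn i, haK, hbK]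
    simp only [map_mul, map_add, map_pow]
  let P : Fin r → Pt (crvT aK bK) K := fun i => Point.some _ _ (hns i)
  let T : Pt (crvT aK bK) K := Point.some 0 0 (nons_zero aK hbK0)
  have hdP : ∀ i, del ((crvT aK bK).baseChange K).toAffine 0 (P i) =
      algebraMap k[X] K (q i.succ) := by
    intro i
    rw [del_dT]
    show dT bK (Point.some _ _ (hns i)) = _
    simp only [dT]
    rw [if_neg (hq0 _)]
  have hdT : del ((crvT aK bK).baseChange K).toAffine 0 T = bK := by
    rw [del_dT]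
    show dT bK (Point.some 0 0 (nons_zero aK hbK0)) = _
    simp [dT]
  refine ⟨T, P, ⟨nons_zero aK hbK0, rfl⟩, fun i => ⟨hns i, rfl⟩, ?_, ?_⟩
  · -- independence
    let φ : Pt (crvT aK bK) K →+ (Fin (r + 1) → ZMod 2) := AddMonoidHom.pi fun j =>
      parHom (crv_root aK bK) (ordP (K := K) (q j) (H.irr j)) (ordP_mul _ (H.irr j))
    have hφ : ∀ (Q : Pt (crvT aK bK) K) (j : Fin (r + 1)), φ Q j =
        ((ordP (q j) (H.irr j) (del ((crvT aK bK).baseChange K).toAffine 0 Q) : ℤ) : ZMod 2) :=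
      fun Q j => rfl
    refine indep_of_hom T ?_ φ P ?_ ?_
    · intro g hg
      refine two_tors aK bK h2K hbK0 ?_ g hg
      intro g'
      have h5 := not_sq (K := K) H.disc g'
      rwa [map_sub, map_mul, map_pow, map_ofNat] at h5
    · rw [hφ, hdT, hbK, Fin.prod_univ_succ, map_mul, ordP_mul _ _ _ _ (hq0 0)
        (hne _ (Finset.prod_ne_zero_iff.2 fun i _ => (H.irr _).ne_zero)), ordP_self,
        ordP_of_not_dvd]
      · decide
      · intro hdv
        obtain ⟨i, -, hi⟩ := ((H.irr 0).prime.dvd_finset_prod_iff _).1 hdv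
        exact H.ndvd 0 i.succ (Fin.succ_ne_zero i).symm hi
    · intro i j
      rw [hφ, hdP]
      by_cases hij : j = i.succ
      · subst hij
        rw [if_pos rfl, ordP_self]
        decide
      · rw [if_neg hij, ordP_of_not_dvd _ _ (H.ndvd j i.succ hij), Int.cast_zero]
  · -- the classes of the points
    have hadd : ∀ (Q Q' : Pt (crvT aK bK) K) (u u' : K),
        (∃ c : K, c ≠ 0 ∧ del ((crvT aK bK).baseChange K).toAffine 0 Q = c ^ 2 * u) →
        (∃ c : K, c ≠ 0 ∧ del ((crvT aK bK).baseChange K).toAffine 0 Q' = c ^ 2 * u') →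
        ∃ c : K, c ≠ 0 ∧ del ((crvT aK bK).baseChange K).toAffine 0 (Q + Q') =
          c ^ 2 * (u * u') := by
      rintro Q Q' u u' ⟨c, hc, e⟩ ⟨c', hc', e'⟩
      obtain ⟨c'', hc'', e''⟩ := del_add (crv_root aK bK) Q Q'
      refine ⟨c'' * c * c', mul_ne_zero (mul_ne_zero hc'' hc) hc', ?_⟩
      rw [e'', e, e']
      ring
    have hsum : ∀ S : Finset (Fin r), ∃ c : K, c ≠ 0 ∧
        del ((crvT aK bK).baseChange K).toAffine 0 (∑ i ∈ S, P i) =
          c ^ 2 * ∏ i ∈ S, algebraMap k[X] K (q i.succ) := by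
      intro S
      induction S using Finset.induction_on with
      | empty =>
        refine ⟨1, one_ne_zero, ?_⟩
        rw [Finset.sum_empty, Finset.prod_empty]
        show (1 : K) = _
        ring
      | insert i S hi ih =>
        rw [Finset.sum_insert hi, Finset.prod_insert hi]
        exact hadd _ _ _ _ ⟨1, one_ne_zero, by rw [hdP]; ring⟩ ih
    have hall : ∀ S : Finset (Fin (r + 1)), ∃ Q ∈ Combos P T, ∃ c : K, c ≠ 0 ∧
        del ((crvT aK bK).baseChange K).toAffine 0 Q =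
          c ^ 2 * algebraMap k[X] K (∏ i ∈ S, q i) := by
      intro S
      by_cases h0 : (0 : Fin (r + 1)) ∈ S
      · obtain ⟨c, hc, e⟩ := hsum (Finset.univ.filter (fun i : Fin r => i.succ ∈ Sᶜ))
        obtain ⟨c', hc', e'⟩ := hadd _ _ _ _ ⟨1, one_ne_zero, by rw [hdT]; ring⟩ ⟨c, hc, e⟩
        refine ⟨_, ⟨_, 1, by rw [one_smul]⟩,
          c' * algebraMap k[X] K (∏ i ∈ Sᶜ, q i), mul_ne_zero hc'
          (hne _ (Finset.prod_ne_zero_iff.2 fun i _ => (H.irr _).ne_zero)), e'.trans ?_⟩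
        rw [← map_prod, ← prod_succ q Sᶜ (by simpa using h0), hbK,
          ← Finset.prod_mul_prod_compl S q]
        simp only [map_mul]
        ring
      · obtain ⟨c, hc, e⟩ := hsum (Finset.univ.filter (fun i : Fin r => i.succ ∈ S))
        refine ⟨_, ⟨_, 0, by rw [zero_smul, zero_add]⟩, c, hc, e.trans ?_⟩
        rw [← map_prod, ← prod_succ q S h0]
    intro A hA hs hd _
    obtain ⟨S, -, hS'⟩ := dvd_prod_irr H.irr Finset.univ A hd
    obtain ⟨u, hu⟩ := hS'
    obtain ⟨c, hc, hcu⟩ := Polynomial.isUnit_iff.1 u.isUnit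
    have hAe : C c * A = ∏ i ∈ S, q i := by rw [← hu, hcu]; ring
    obtain ⟨Q, hQS, e, he, hQ⟩ := hall S
    refine ⟨Q, hQS, c, e⁻¹, hc.ne_zero, inv_ne_zero he, ?_⟩
    rw [hAe, ← del_dT aK bK Q, hQ]
    field_simp

theorem completeIn_disc [IsFractionRing k[X] K] (h2 : (2 : k) ≠ 0) {a b : k[X]} (hb : b ≠ 0)
    (hd' : Irreducible (a ^ 2 - 4 * b)) :
    CompleteIn K (-2 * a) (a ^ 2 - 4 * b) (fun _ => True) {P | TorT P} := by
  have inj := IsFractionRing.injective k[X] K
  have h2K : (2 : K) ≠ 0 := tt h2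
  have hbK : algebraMap k[X] K b ≠ 0 := by simpa using hb
  have hd2K : (algebraMap k[X] K (-2 * a)) ^ 2 - 4 * algebraMap k[X] K (a ^ 2 - 4 * b) ≠ 0 := by
    have e : (algebraMap k[X] K (-2 * a)) ^ 2 - 4 * algebraMap k[X] K (a ^ 2 - 4 * b) =
        2 ^ 4 * algebraMap k[X] K b := by
      simp only [map_sub, map_mul, map_pow, map_ofNat, map_neg]
      ring
    rw [e]
    exact mul_ne_zero (pow_ne_zero 4 h2K) hbK
  have hdK' : algebraMap k[X] K (a ^ 2 - 4 * b) ≠ 0 := by
    rw [Ne, map_eq_zero_iff _ inj]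
    exact hd'.ne_zero
  intro A mA sA dA _
  obtain ⟨c, x, hc, rfl⟩ := dvd_irr hd' dA
  have hcc : C c⁻¹ * C c = (1 : k[X]) := by rw [← C_mul, inv_mul_cancel₀ hc, C_1]
  fin_cases x
  · refine ⟨0, Or.inl rfl, c⁻¹, 1, inv_ne_zero hc, one_ne_zero, ?_⟩
    show algebraMap k[X] K (C c⁻¹ * (C c * (a ^ 2 - 4 * b) ^ 0)) = 1 ^ 2 * 1
    rw [pow_zero, mul_one, hcc, map_one]; ring
  · have hns : ((crvT (algebraMap k[X] K (-2 * a))
        (algebraMap k[X] K (a ^ 2 - 4 * b))).baseChange K).toAffine.Nonsingular 0 0 :=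
      nons_zero _ hdK'
    refine ⟨Point.some _ _ hns, Or.inr ⟨_, _, rfl⟩, c⁻¹, 1, inv_ne_zero hc, one_ne_zero, ?_⟩
    show algebraMap k[X] K (C c⁻¹ * (C c * (a ^ 2 - 4 * b) ^ 1)) = 1 ^ 2 *
      (if (0 : K) = 0 then algebraMap k[X] K (a ^ 2 - 4 * b) else 0)
    rw [if_pos rfl, ← mul_assoc, hcc]; ring_nf

theorem enough_of_complete (hT : IsTower k k' K F) (h2 : (2 : k) ≠ 0) {a b : k[X]}
    {S : Set (Pt (crvT (algebraMap k[X] K a) (algebraMap k[X] K b)) K)}
    (h : CompleteIn K a b (fun _ => True) S) : EnoughPointsT K F a b := by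
  intro A hA hs hd
  obtain ⟨P, -, c, e, hc, he, hP⟩ := h A hA hs hd trivial
  refine ⟨P, ?_⟩
  have hcc : C c⁻¹ * C c = (1 : k[X]) := by rw [← C_mul, inv_mul_cancel₀ hc, C_1]
  have e1 : A = C c⁻¹ * (C c * A) := by rw [← mul_assoc, hcc, one_mul]
  rw [e1]
  refine rep_const hT h2 (inv_ne_zero hc) ⟨algebraMap K F e, (_root_.map_ne_zero _).2 he, ?_⟩
  rw [hP, map_mul, map_pow]

theorem holds_aux [IsFractionRing k[X] K] (hT : IsTower k k' K F) (h2 : (2 : k) ≠ 0) {r : ℕ}
    {q : Fin (r + 1) → k[X]} {a : k[X]} {w : Fin r → k[X]} (H : HasSections q a w)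
    (hs : ∀ i, (q i).Separable) (hds : (a ^ 2 - 4 * ∏ i, q i).Separable)
    (hq : ∃ i, SqStable (q i)) (hd : SqStable (a ^ 2 - 4 * ∏ i, q i)) :
    TateAtTwo (F := F) k' (crvT (algebraMap k[X] K a) (algebraMap k[X] K (∏ i, q i))) ∧
    (∃ (T : Pt (crvT (algebraMap k[X] K a) (algebraMap k[X] K (∏ i, q i))) K)
      (P : Fin r → Pt (crvT (algebraMap k[X] K a) (algebraMap k[X] K (∏ i, q i))) K),
      (∃ h, T = Point.some 0 0 h) ∧
      (∀ i, ∃ h, P i = Point.some (algebraMap k[X] K (q i.succ))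
        (algebraMap k[X] K (q i.succ * w i)) h) ∧
      LinearIndependent ℤ P ∧
      ∀ P0 : Pt (crvT (algebraMap k[X] K a) (algebraMap k[X] K (∏ i, q i))) K,
        ∃ (Q : Pt (crvT (algebraMap k[X] K a) (algebraMap k[X] K (∏ i, q i))) K)
          (U : Finset (Fin r)) (e : ℕ), P0 = 2 • Q + (e • T + ∑ i ∈ U, P i)) ∧
    Sha.ShaTwoTrivial k[X] (crvT (algebraMap k[X] K a) (algebraMap k[X] K (∏ i, q i))) := by
  obtain ⟨j, hj⟩ := hq
  obtain ⟨T, P, hTT, hP, hind, hC⟩ := points_aux (K := K) h2 H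
  have inj := IsFractionRing.injective k[X] K
  have h2K : (2 : K) ≠ 0 := tt h2
  have hb0 := H.b_ne
  have hbK : algebraMap k[X] K (∏ i, q i) ≠ 0 := by
    rw [Ne, IsFractionRing.to_map_eq_zero_iff]
    exact hb0
  have hdK : (algebraMap k[X] K a) ^ 2 - 4 * algebraMap k[X] K (∏ i, q i) ≠ 0 := by
    rw [← emap', Ne, map_eq_zero_iff _ inj]
    exact H.disc.ne_zero
  have hjg : ¬ q j ∣ ∏ i ∈ Finset.univ.erase j, q i := by
    intro hdv
    obtain ⟨i, hi, hi'⟩ := ((H.irr j).prime.dvd_finset_prod_iff _).1 hdv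
    exact H.ndvd j i (Finset.ne_of_mem_erase hi).symm hi'
  have hjb : ∏ i, q i = q j * ∏ i ∈ Finset.univ.erase j, q i :=
    (Finset.mul_prod_erase Finset.univ q (Finset.mem_univ j)).symm
  have hNb : NotNorm (∏ i, q i) := notNorm_of_stable (H.irr j) hj hjb hjg
  have hNd : NotNorm (a ^ 2 - 4 * ∏ i, q i) :=
    notNorm_of_stable H.disc hd (mul_one _).symm (fun h => H.disc.not_isUnit (isUnit_of_dvd_one h))
  have hC2 := completeIn_disc (K := K) h2 hb0 H.disc
  have o1 : ∃ (π : k[X]) (hπ : Irreducible π), SqStable π ∧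
      ¬ IsSquare ((hp π hπ).valuation K (algebraMap k[X] K (a ^ 2 - 4 * ∏ i, q i))) :=
    ⟨_, H.disc, hd, hp_ns H.disc⟩
  have o2 : ∃ (π : k[X]) (hπ : Irreducible π), SqStable π ∧
      ¬ IsSquare ((hp π hπ).valuation K (algebraMap k[X] K (∏ i, q i))) := by
    refine ⟨q j, H.irr j, hj, ?_⟩
    have h3 := odd_place (K := K) (H.irr j) hjg 0
    rw [mul_zero, zero_add, pow_one, ← hjb] at h3
    exact h3
  have hD := desc_sets (K := K) h2 hb0 H.disc.ne_zero hC hC2 o1 o2
  obtain ⟨α, β, hR⟩ := exists_roots (Ω := SeparableClosure K) h2K hbK hdK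
  have hhalf : Half (crvT (algebraMap k[X] K a) (algebraMap k[X] K (∏ i, q i)))
      (SeparableClosure K) := halve_sep hR.E
  refine ⟨mainT hT h2 hb0 H.disc.ne_zero ?_ hNb hNd (enough_of_complete hT h2 hC)
    (enough_pow hT h2 (u := 1) (n := 0) one_ne_zero H.disc (by rw [C_1]; ring)),
    ⟨T, P, hTT, hP, hind, fun P0 => ?_⟩, sha_of _ hhalf hD⟩
  · intro π hπ hdv
    rcases hπ.prime.dvd_or_dvd hdv with h | h
    · obtain ⟨i, -, hi⟩ := (hπ.prime.dvd_finset_prod_iff _).1 h
      exact (hs i).of_dvd hi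
    · exact hds.of_dvd h
  · obtain ⟨Q, P1, ⟨U, e, hP1⟩, h⟩ := pts_of _ hhalf hD P0
    exact ⟨Q, U, e, by rw [two_smul, ← hP1]; exact h⟩

/-- **Surfaces with given sections.** -/
theorem holds [IsFractionRing k[X] K] (hT : IsTower k k' K F) (h2 : (2 : k) ≠ 0) {r : ℕ}
    {q : Fin (r + 1) → k[X]} {a : k[X]} {w : Fin r → k[X]} (H : HasSections q a w)
    (hs : ∀ i, (q i).Separable) (hds : (a ^ 2 - 4 * ∏ i, q i).Separable)
    (hq : ∃ i, SqStable (q i)) (hd : SqStable (a ^ 2 - 4 * ∏ i, q i)) :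
    HoldsFor k' K F a (∏ i, q i) (fun i => q i.succ) w :=
  holds_aux hT h2 H hs hds hq hd

end main

end Pool.Agent.H709.TS
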