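import Pool.Agent.H709.TS.Ex
import Pool.Agent.H709.TS.Sec2

/-!
# The example: all the conclusions
-/

set_option autoImplicit false
set_option linter.all false

open Polynomial IsDedekindDomain WeierstrassCurve WeierstrassCurve.Affine
open scoped Classical

namespace Pool.Agent.H709.TS

open Pool.Agent.TH115.GD
open Pool.Agent.W309.TD (SqStable sqStable_of_odd)

/-- **The example.** -/
theorem example_holds {k k' K F : Type} [Field k] [CharZero k] [Field k'] [Algebra k k'] [Field K]
    [Algebra k[X] K] [IsFractionRing k[X] K] [Field F] [Algebra k'[X] F] [IsFractionRing k'[X] F]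
    [Algebra K F] (hk : ∀ x : k, IsAlgebraic ℚ x → ∃ y : ℚ, (y : k) = x)
    (hT : IsTower k k' K F) {n : ℕ} (hn : Odd n) :
    ∃ x w : Fin 3 → k[X], HoldsFor k' K F (exA k n) (exB k n) x w := by
  obtain ⟨q, w, H, hb, hdq, hdd⟩ := ex_has hk hn
  have hd : SqStable (exA k n ^ 2 - 4 * exB k n) := by
    refine sqStable_of_odd ?_ ?_
    · rw [← hb]
      exact H.disc
    · rw [hdd]
      exact Odd.mul (by decide) hn
  rw [← hb] at hd ⊢
  exact ⟨_, w, holds hT two_ne_zero H (fun i => (H.irr i).separable) H.disc.separable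
    ⟨2, sqStable_of_odd (H.irr 2) (by rw [hdq]; exact hn)⟩ hd⟩

end Pool.Agent.H709.TS
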