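import Pool.Agent.H709.TS.Sec

/-!
# Families of elliptic surfaces with two and with three sections of infinite order
-/

set_option autoImplicit false
set_option linter.all false

open Polynomial
open scoped Classical

namespace Pool.Agent.H709.TS

variable {k : Type} [Field k]

/-- The coefficient `a = ((1 + x - y - z)² - 4 x - 4 y z) / 4`; it is symmetric in `x`, `y`, `z`. -/
noncomputable def aTwo (x y z : k[X]) : k[X] :=
  C (4⁻¹) * ((1 + x - y - z) ^ 2 - 4 * x - 4 * (y * z))

theorem aTwo_symm (x y z : k[X]) : aTwo x y z = aTwo y x z ∧ aTwo x y z = aTwo x z y := by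
  unfold aTwo
  constructor
  · ring
  · ring

theorem erase_prod_three {M : Type} [CommMonoid M] (f : Fin 3 → M) :
    (∏ j ∈ Finset.univ.erase (1 : Fin 3), f j = f 0 * f 2) ∧
    (∏ j ∈ Finset.univ.erase (2 : Fin 3), f j = f 0 * f 1) := by
  have e1 : (Finset.univ.erase (1 : Fin 3)) = {0, 2} := by decide
  have e2 : (Finset.univ.erase (2 : Fin 3)) = {0, 1} := by decide
  rw [e1, e2, Finset.prod_pair (by decide), Finset.prod_pair (by decide)]
  exact ⟨rfl, rfl⟩

theorem erase_prod_four {M : Type} [CommMonoid M] (f : Fin 4 → M) :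
    (∏ j ∈ Finset.univ.erase (1 : Fin 4), f j = f 0 * (f 2 * f 3)) ∧
    (∏ j ∈ Finset.univ.erase (2 : Fin 4), f j = f 0 * (f 1 * f 3)) ∧
    (∏ j ∈ Finset.univ.erase (3 : Fin 4), f j = f 0 * (f 1 * f 2)) := by
  have e1 : (Finset.univ.erase (1 : Fin 4)) = {0, 2, 3} := by decide
  have e2 : (Finset.univ.erase (2 : Fin 4)) = {0, 1, 3} := by decide
  have e3 : (Finset.univ.erase (3 : Fin 4)) = {0, 1, 2} := by decide
  rw [e1, e2, e3, Finset.prod_insert (by decide), Finset.prod_pair (by decide),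
    Finset.prod_insert (by decide), Finset.prod_pair (by decide),
    Finset.prod_insert (by decide), Finset.prod_pair (by decide)]
  exact ⟨rfl, rfl, rfl⟩

/-- **Two sections.** -/
theorem hasTwo (h2 : (2 : k) ≠ 0) {x y z : k[X]} (hx : Irreducible x) (hy : Irreducible y)
    (hz : Irreducible z) (hxy : ¬ x ∣ y) (hxz : ¬ x ∣ z) (hyz : ¬ y ∣ z)
    (hd : Irreducible (aTwo x y z ^ 2 - 4 * (x * y * z))) :
    HasSections (r := 2) ![z, x, y] (aTwo x y z)
      ![C (2⁻¹) * (1 + x - y - z), C (2⁻¹) * (1 + y - x - z)] := by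
  have symm : ∀ {f g : k[X]}, Irreducible f → Irreducible g → ¬ f ∣ g → ¬ g ∣ f := by
    intro f g hf hg h h'
    exact h ((hg.associated_of_dvd hf h').symm.dvd)
  have h4 : (4 : k) ≠ 0 := by
    have : (4 : k) = 2 ^ 2 := by norm_num
    rw [this]
    exact pow_ne_zero 2 h2
  have c4 : (C (4⁻¹) : k[X]) * 4 = 1 := by
    have : (4 : k[X]) = C 4 := by rw [map_ofNat]
    rw [this, ← C_mul, inv_mul_cancel₀ h4, C_1]
  have c2 : (C (2⁻¹) : k[X]) ^ 2 = C (4⁻¹) := by
    rw [← C_pow]
    congr 1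
    rw [inv_pow]
    norm_num
  refine ⟨?_, ?_, ?_, ?_⟩
  · intro i
    fin_cases i
    · exact hz
    · exact hx
    · exact hy
  · intro i j hij
    fin_cases i <;> fin_cases j
    · exact absurd rfl hij
    · exact symm hx hz hxz
    · exact symm hy hz hyz
    · exact hxz
    · exact absurd rfl hij
    · exact hxy
    · exact hyz
    · exact symm hx hy hxy
    · exact absurd rfl hij
  · intro i
    fin_cases i
    · have := (erase_prod_three (![z, x, y] : Fin 3 → k[X])).1
      show (C (2⁻¹) * (1 + x - y - z)) ^ 2 = x + aTwo x y z +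
        ∏ j ∈ Finset.univ.erase (1 : Fin 3), (![z, x, y] : Fin 3 → k[X]) j
      rw [this]
      show (C (2⁻¹) * (1 + x - y - z)) ^ 2 = x + aTwo x y z + z * y
      unfold aTwo
      rw [mul_pow, c2]
      linear_combination (x + y * z) * c4
    · have := (erase_prod_three (![z, x, y] : Fin 3 → k[X])).2
      show (C (2⁻¹) * (1 + y - x - z)) ^ 2 = y + aTwo x y z +
        ∏ j ∈ Finset.univ.erase (2 : Fin 3), (![z, x, y] : Fin 3 → k[X]) j
      rw [this]
      show (C (2⁻¹) * (1 + y - x - z)) ^ 2 = y + aTwo x y z + z * x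
      unfold aTwo
      rw [mul_pow, c2]
      linear_combination (y + x * z) * c4
  · have e : ∏ i, (![z, x, y] : Fin 3 → k[X]) i = x * y * z := by
      rw [Fin.prod_univ_three]
      show z * x * y = _
      ring
    rw [e]
    exact hd

/-- The relation of the family with three sections. -/
theorem pThree_rel {l m : k} (hl : l ≠ 0) (hm : m ≠ 0) (hlm : l ≠ m) (q r s : k[X]) :
    (C l - C m) * (C l * C m * pThree l m q r s - 1) =
      (C l * C m - s) * (C l * q - C m * r) := by
  have c1 : C (l * m)⁻¹ * (C l * C m) = (1 : k[X]) := by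
    rw [← C_mul, ← C_mul, inv_mul_cancel₀ (mul_ne_zero hl hm), C_1]
  have c2 : C (l - m)⁻¹ * (C l - C m) = (1 : k[X]) := by
    rw [← C_sub, ← C_mul, inv_mul_cancel₀ (sub_ne_zero.2 hlm), C_1]
  unfold pThree
  rw [C_mul]
  linear_combination ((C l - C m) * (1 + C (l - m)⁻¹ * ((C l * C m - s) * (C l * q - C m * r)))) *
    c1 + ((C l * C m - s) * (C l * q - C m * r)) * c2

/-- **Three sections.** -/
theorem hasThree (h2 : (2 : k) ≠ 0) {l m : k} (hl : l ≠ 0) (hm : m ≠ 0) (hlm : l ≠ m)
    {p q r s : k[X]} (hpe : p = pThree l m q r s) (hp : Irreducible p) (hq : Irreducible q)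
    (hr : Irreducible r) (hs : Irreducible s) (hpq : ¬ p ∣ q) (hpr : ¬ p ∣ r) (hps : ¬ p ∣ s)
    (hqr : ¬ q ∣ r) (hqs : ¬ q ∣ s) (hrs : ¬ r ∣ s)
    (hd : Irreducible (aThree l m q r s ^ 2 - 4 * (p * q * r * s))) :
    HasSections (r := 3) ![s, p, q, r] (aThree l m q r s)
      ![C (2⁻¹) * (C l * (p - q) + C l⁻¹ * (1 - r * s)),
        C (2⁻¹) * (C l⁻¹ * (1 - r * s) - C l * (p - q)),
        C (2⁻¹) * (C m⁻¹ * (1 - q * s) - C m * (p - r))] := by
  have symm : ∀ {f g : k[X]}, Irreducible f → Irreducible g → ¬ f ∣ g → ¬ g ∣ f := by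
    intro f g hf hg h h'
    exact h ((hg.associated_of_dvd hf h').symm.dvd)
  have h4 : (4 : k) ≠ 0 := by
    have : (4 : k) = 2 ^ 2 := by norm_num
    rw [this]
    exact pow_ne_zero 2 h2
  have c2 : (C (2⁻¹) : k[X]) ^ 2 * 4 = 1 := by
    have e4 : (4 : k[X]) = C 2 * C 2 := by
      have e5 : (2 : k) * 2 = 4 := by norm_num
      rw [← C_mul, e5, map_ofNat]
    have e1 : (C (2⁻¹) : k[X]) * C 2 = 1 := by rw [← C_mul, inv_mul_cancel₀ h2, C_1]
    rw [e4]
    linear_combination (C (2⁻¹) * C 2 + 1) * e1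
  have cl : C l⁻¹ * C l = (1 : k[X]) := by rw [← C_mul, inv_mul_cancel₀ hl, C_1]
  have cm : C m⁻¹ * C m = (1 : k[X]) := by rw [← C_mul, inv_mul_cancel₀ hm, C_1]
  have hrel := pThree_rel hl hm hlm q r s
  rw [← hpe] at hrel
  -- the first square in two ways
  have hX : C l * (p - q) + C l⁻¹ * (1 - r * s) = C m * (p - r) + C m⁻¹ * (1 - q * s) := by
    have key : C l * C m * (C l * (p - q) + C l⁻¹ * (1 - r * s) -
        (C m * (p - r) + C m⁻¹ * (1 - q * s))) = 0 := by
      linear_combination hrel + C m * (1 - r * s) * cl - C l * (1 - q * s) * cm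
    have hlm0 : (C l * C m : k[X]) ≠ 0 := mul_ne_zero (C_ne_zero.2 hl) (C_ne_zero.2 hm)
    exact sub_eq_zero.1 ((mul_eq_zero.1 key).resolve_left hlm0)
  have ha : aThree l m q r s = (C (2⁻¹) * (C l * (p - q) + C l⁻¹ * (1 - r * s))) ^ 2 - p -
      q * r * s := by
    unfold aThree
    rw [← hpe]
  refine ⟨?_, ?_, ?_, ?_⟩
  · intro i
    fin_cases i
    · exact hs
    · exact hp
    · exact hq
    · exact hr
  · intro i j hij
    fin_cases i <;> fin_cases j
    · exact absurd rfl hij
    · exact symm hp hs hps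
    · exact symm hq hs hqs
    · exact symm hr hs hrs
    · exact hps
    · exact absurd rfl hij
    · exact hpq
    · exact hpr
    · exact hqs
    · exact symm hp hq hpq
    · exact absurd rfl hij
    · exact hqr
    · exact hrs
    · exact symm hp hr hpr
    · exact symm hq hr hqr
    · exact absurd rfl hij
  · intro i
    fin_cases i
    · have := (erase_prod_four (![s, p, q, r] : Fin 4 → k[X])).1
      show (C (2⁻¹) * (C l * (p - q) + C l⁻¹ * (1 - r * s))) ^ 2 = p + aThree l m q r s +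
        ∏ j ∈ Finset.univ.erase (1 : Fin 4), (![s, p, q, r] : Fin 4 → k[X]) j
      rw [this]
      show (C (2⁻¹) * (C l * (p - q) + C l⁻¹ * (1 - r * s))) ^ 2 = p + aThree l m q r s +
        s * (q * r)
      rw [ha]
      ring
    · have := (erase_prod_four (![s, p, q, r] : Fin 4 → k[X])).2.1
      show (C (2⁻¹) * (C l⁻¹ * (1 - r * s) - C l * (p - q))) ^ 2 = q + aThree l m q r s +
        ∏ j ∈ Finset.univ.erase (2 : Fin 4), (![s, p, q, r] : Fin 4 → k[X]) j
      rw [this]
      show (C (2⁻¹) * (C l⁻¹ * (1 - r * s) - C l * (p - q))) ^ 2 = q + aThree l m q r s +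
        s * (p * r)
      rw [ha]
      linear_combination (-(p - q) * (1 - r * s)) * c2 -
        (C (2⁻¹)) ^ 2 * 4 * (p - q) * (1 - r * s) * cl
    · have := (erase_prod_four (![s, p, q, r] : Fin 4 → k[X])).2.2
      show (C (2⁻¹) * (C m⁻¹ * (1 - q * s) - C m * (p - r))) ^ 2 = r + aThree l m q r s +
        ∏ j ∈ Finset.univ.erase (3 : Fin 4), (![s, p, q, r] : Fin 4 → k[X]) j
      rw [this]
      show (C (2⁻¹) * (C m⁻¹ * (1 - q * s) - C m * (p - r))) ^ 2 = r + aThree l m q r s +
        s * (p * q)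
      rw [ha, hX]
      linear_combination (-(p - r) * (1 - q * s)) * c2 -
        (C (2⁻¹)) ^ 2 * 4 * (p - r) * (1 - q * s) * cm
  · have e : ∏ i, (![s, p, q, r] : Fin 4 → k[X]) i = p * q * r * s := by
      rw [Fin.prod_univ_four]
      show s * p * q * r = _
      ring
    rw [e]
    exact hd

end Pool.Agent.H709.TS
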