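import Pool.Agent.H709.TS.Core
import Pool.Agent.H709.TS.Defs

/-!
# The Tate conjecture at 2 for elliptic surfaces with given sections
-/

set_option autoImplicit false
set_option linter.all false

open Polynomial IsDedekindDomain WeierstrassCurve WeierstrassCurve.Affine
open scoped Classical

namespace Pool.Agent.H709.TS

open Pool.Agent.TH115.GD Pool.Agent.W309.RK

section alg

variable {k : Type} [Field k] {r : ℕ} {q : Fin (r + 1) → k[X]} {a : k[X]} {w : Fin r → k[X]}

theorem HasSections.w_ne (H : HasSections q a w) (i : Fin r) : w i ≠ 0 := by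
  intro h0
  have h1 := H.sec i
  rw [h0] at h1
  have h3 := Finset.mul_prod_erase Finset.univ q (Finset.mem_univ i.succ)
  set B := ∏ j ∈ Finset.univ.erase i.succ, q j with hB
  have h4 := H.disc
  rw [← h3] at h4
  have e : a ^ 2 - 4 * (q i.succ * B) = (q i.succ - B) * (q i.succ - B) := by
    have ha : a = -(q i.succ) - B := by linear_combination -h1
    rw [ha]; ring
  rw [e] at h4
  rcases irreducible_mul_iff.1 h4 with ⟨h5, h6⟩ | ⟨h5, h6⟩
  · exact h5.not_isUnit h6
  · exact h5.not_isUnit h6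

theorem HasSections.b_ne (H : HasSections q a w) : ∏ i, q i ≠ 0 :=
  Finset.prod_ne_zero_iff.2 fun i _ => (H.irr i).ne_zero

/-- the equation of the point -/
theorem HasSections.eqn (H : HasSections q a w) (i : Fin r) :
    (q i.succ * w i) ^ 2 = q i.succ * (q i.succ ^ 2 + a * q i.succ + ∏ j, q j) := by
  have h3 := Finset.mul_prod_erase Finset.univ q (Finset.mem_univ i.succ)
  rw [← h3, mul_pow, H.sec i]
  ring

end alg

theorem prod_succ {M : Type} [CommMonoid M] {r : ℕ} (f : Fin (r + 1) → M) (S : Finset (Fin (r + 1)))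
    (h0 : (0 : Fin (r + 1)) ∉ S) :
    ∏ j ∈ S, f j = ∏ i ∈ Finset.univ.filter (fun i : Fin r => i.succ ∈ S), f i.succ := by
  have hS : S = (Finset.univ.filter (fun i : Fin r => i.succ ∈ S)).map (Fin.succEmb r) := by
    ext j
    rw [Finset.mem_map]
    constructor
    · intro hj
      have hj0 : j ≠ 0 := by
        rintro rfl
        exact h0 hj
      obtain ⟨i, rfl⟩ := Fin.exists_succ_eq.2 hj0
      exact ⟨i, by simpa using hj, rfl⟩
    · rintro ⟨i, hi, rfl⟩
      simpa using hi
  conv_lhs => rw [hS]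
  rw [Finset.prod_map]
  rfl

section main

variable {k k' K F : Type} [Field k] [Field k'] [Algebra k k'] [Field K] [Algebra k[X] K]
    [Field F] [Algebra k'[X] F] [IsFractionRing k'[X] F] [Algebra K F]

theorem not_sq [IsFractionRing k[X] K] {d : k[X]} (hd : Irreducible d) (g : K) :
    g ^ 2 ≠ algebraMap k[X] K d := by
  intro h
  have hd0 : algebraMap k[X] K d ≠ 0 := by simpa using hd.ne_zero
  have hg : g ≠ 0 := by
    rintro rfl
    rw [zero_pow two_ne_zero] at h
    exact hd0 h.symm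
  have h1 := ordP_self (K := K) d hd
  rw [← h, pow_two, ordP_mul _ _ _ _ hg hg] at h1
  omega

theorem sections_aux (hT : IsTower k k' K F) (h2 : (2 : k) ≠ 0) {r : ℕ} {q : Fin (r + 1) → k[X]}
    {a : k[X]} {w : Fin r → k[X]} (H : HasSections q a w) :
    ∃ P : Fin r → Pt (crvT (algebraMap k[X] K a) (algebraMap k[X] K (∏ i, q i))) K,
      (∀ i, ∃ hn, P i = Point.some (algebraMap k[X] K (q i.succ))
        (algebraMap k[X] K (q i.succ * w i)) hn) ∧ LinearIndependent ℤ P ∧
      EnoughPointsT K F a (∏ i, q i) := by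
  haveI := hT.fracK
  have inj := IsFractionRing.injective k[X] K
  set aK := algebraMap k[X] K a with haK
  set bK := algebraMap k[X] K (∏ i, q i) with hbK
  have hbK0 : bK ≠ 0 := by
    rw [hbK, Ne, IsFractionRing.to_map_eq_zero_iff]
    exact H.b_ne
  have h2K : (2 : K) ≠ 0 := tt h2
  have hne : ∀ p : k[X], p ≠ 0 → algebraMap k[X] K p ≠ 0 := fun p hp => by simpa using hp
  have hq0 : ∀ i, algebraMap k[X] K (q i) ≠ 0 := fun i => hne _ (H.irr i).ne_zero
  have hns : ∀ i : Fin r, ((crvT aK bK).baseChange K).toAffine.Nonsingular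
      (algebraMap k[X] K (q i.succ)) (algebraMap k[X] K (q i.succ * w i)) := by
    intro i
    refine crv_ns aK bK h2K (hne _ (mul_ne_zero (H.irr _).ne_zero (H.w_ne i))) ?_
    rw [← map_pow, H.eqn i, haK, hbK]
    simp only [map_mul, map_add, map_pow]
  let P : Fin r → Pt (crvT aK bK) K := fun i => Point.some _ _ (hns i)
  let T : Pt (crvT aK bK) K := Point.some 0 0 (nons_zero aK hbK0)
  have hdP : ∀ i, del ((crvT aK bK).baseChange K).toAffine 0 (P i) =
      algebraMap k[X] K (q i.succ) := by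
    intro i
    rw [del_dT]
    show dT bK (Point.some _ _ (hns i)) = _
    simp only [dT]
    rw [if_neg (hq0 _)]
  have hdT : del ((crvT aK bK).baseChange K).toAffine 0 T = bK := by
    rw [del_dT]
    show dT bK (Point.some 0 0 (nons_zero aK hbK0)) = _
    simp [dT]
  refine ⟨P, fun i => ⟨hns i, rfl⟩, ?_, ?_⟩
  · -- independence
    let φ : Pt (crvT aK bK) K →+ (Fin (r + 1) → ZMod 2) := AddMonoidHom.pi fun j =>
      parHom (crv_root aK bK) (ordP (K := K) (q j) (H.irr j)) (ordP_mul _ (H.irr j))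
    have hφ : ∀ (Q : Pt (crvT aK bK) K) (j : Fin (r + 1)), φ Q j =
        ((ordP (q j) (H.irr j) (del ((crvT aK bK).baseChange K).toAffine 0 Q) : ℤ) : ZMod 2) :=
      fun Q j => rfl
    refine indep_of_hom T ?_ φ P ?_ ?_
    · intro g hg
      refine two_tors aK bK h2K hbK0 ?_ g hg
      intro g'
      have h5 := not_sq (K := K) H.disc g'
      rwa [map_sub, map_mul, map_pow, map_ofNat] at h5
    · rw [hφ, hdT, hbK, Fin.prod_univ_succ, map_mul, ordP_mul _ _ _ _ (hq0 0)
        (hne _ (Finset.prod_ne_zero_iff.2 fun i _ => (H.irr _).ne_zero)), ordP_self,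
        ordP_of_not_dvd]
      · decide
      · intro hdv
        obtain ⟨i, -, hi⟩ := ((H.irr 0).prime.dvd_finset_prod_iff _).1 hdv
        exact H.ndvd 0 i.succ (Fin.succ_ne_zero i).symm hi
    · intro i j
      rw [hφ, hdP]
      by_cases hij : j = i.succ
      · subst hij
        rw [if_pos rfl, ordP_self]
        decide
      · rw [if_neg hij, ordP_of_not_dvd _ _ (H.ndvd j i.succ hij), Int.cast_zero]
  · -- the classes of the points
    have hadd : ∀ (Q Q' : Pt (crvT aK bK) K) (u u' : K),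
        (∃ c : K, c ≠ 0 ∧ del ((crvT aK bK).baseChange K).toAffine 0 Q = c ^ 2 * u) →
        (∃ c : K, c ≠ 0 ∧ del ((crvT aK bK).baseChange K).toAffine 0 Q' = c ^ 2 * u') →
        ∃ c : K, c ≠ 0 ∧ del ((crvT aK bK).baseChange K).toAffine 0 (Q + Q') =
          c ^ 2 * (u * u') := by
      rintro Q Q' u u' ⟨c, hc, e⟩ ⟨c', hc', e'⟩
      obtain ⟨c'', hc'', e''⟩ := del_add (crv_root aK bK) Q Q'
      refine ⟨c'' * c * c', mul_ne_zero (mul_ne_zero hc'' hc) hc', ?_⟩
      rw [e'', e, e']
      ring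
    have hsum : ∀ S : Finset (Fin r), ∃ c : K, c ≠ 0 ∧
        del ((crvT aK bK).baseChange K).toAffine 0 (∑ i ∈ S, P i) =
          c ^ 2 * ∏ i ∈ S, algebraMap k[X] K (q i.succ) := by
      intro S
      induction S using Finset.induction_on with
      | empty =>
        refine ⟨1, one_ne_zero, ?_⟩
        rw [Finset.sum_empty, Finset.prod_empty]
        show (1 : K) = _
        ring
      | insert i S hi ih =>
        rw [Finset.sum_insert hi, Finset.prod_insert hi]
        exact hadd _ _ _ _ ⟨1, one_ne_zero, by rw [hdP]; ring⟩ ih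
    have hall : ∀ S : Finset (Fin (r + 1)), ∃ Q : Pt (crvT aK bK) K, ∃ c : K, c ≠ 0 ∧
        del ((crvT aK bK).baseChange K).toAffine 0 Q =
          c ^ 2 * algebraMap k[X] K (∏ i ∈ S, q i) := by
      intro S
      by_cases h0 : (0 : Fin (r + 1)) ∈ S
      · obtain ⟨c, hc, e⟩ := hsum (Finset.univ.filter (fun i : Fin r => i.succ ∈ Sᶜ))
        obtain ⟨c', hc', e'⟩ := hadd _ _ _ _ ⟨1, one_ne_zero, by rw [hdT]; ring⟩ ⟨c, hc, e⟩
        refine ⟨_, c' * algebraMap k[X] K (∏ i ∈ Sᶜ, q i), mul_ne_zero hc'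
          (hne _ (Finset.prod_ne_zero_iff.2 fun i _ => (H.irr _).ne_zero)), e'.trans ?_⟩
        rw [← map_prod, ← prod_succ q Sᶜ (by simpa using h0), hbK,
          ← Finset.prod_mul_prod_compl S q]
        simp only [map_mul]
        ring
      · obtain ⟨c, hc, e⟩ := hsum (Finset.univ.filter (fun i : Fin r => i.succ ∈ S))
        refine ⟨_, c, hc, e.trans ?_⟩
        rw [← map_prod, ← prod_succ q S h0]
    intro A hA hs hd
    obtain ⟨S, -, hS'⟩ := dvd_prod_irr H.irr Finset.univ A hd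
    obtain ⟨u, hu⟩ := hS'.symm
    obtain ⟨c, hc, hcu⟩ := Polynomial.isUnit_iff.1 u.isUnit
    have hAe : A = C c * ∏ i ∈ S, q i := by rw [← hu, hcu]; ring
    obtain ⟨Q, e, he, hQ⟩ := hall S
    refine ⟨Q, ?_⟩
    rw [hAe]
    refine rep_const hT h2 hc.ne_zero ⟨algebraMap K F e⁻¹, ?_, ?_⟩
    · exact (_root_.map_ne_zero _).2 (inv_ne_zero he)
    · rw [← del_dT aK bK Q, hQ, ← map_pow, ← map_mul]
      congr 1
      field_simp

/-- **Surfaces with given sections.** -/
theorem sections (hT : IsTower k k' K F) (h2 : (2 : k) ≠ 0) {r : ℕ} {q : Fin (r + 1) → k[X]}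
    {a : k[X]} {w : Fin r → k[X]} (H : HasSections q a w) (hs : ∀ i, (q i).Separable)
    (hds : (a ^ 2 - 4 * ∏ i, q i).Separable) (hNb : NotNorm (∏ i, q i))
    (hNd : NotNorm (a ^ 2 - 4 * ∏ i, q i)) :
    TateAtTwo (F := F) k' (crvT (algebraMap k[X] K a) (algebraMap k[X] K (∏ i, q i))) ∧
      ∃ P : Fin r → Pt (crvT (algebraMap k[X] K a) (algebraMap k[X] K (∏ i, q i))) K,
        (∀ i, ∃ hn, P i = Point.some (algebraMap k[X] K (q i.succ))
          (algebraMap k[X] K (q i.succ * w i)) hn) ∧ LinearIndependent ℤ P := by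
  obtain ⟨P, hP, hind, hE⟩ := sections_aux hT h2 H
  refine ⟨mainT hT h2 H.b_ne H.disc.ne_zero ?_ hNb hNd hE
    (enough_pow hT h2 (u := 1) (n := 0) one_ne_zero H.disc (by rw [C_1]; ring)), P, hP, hind⟩
  intro π hπ hdv
  rcases hπ.prime.dvd_or_dvd hdv with h | h
  · obtain ⟨i, -, hi⟩ := (hπ.prime.dvd_finset_prod_iff _).1 h
    exact (hs i).of_dvd hi
  · exact hds.of_dvd h

end main

end Pool.Agent.H709.TS
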